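import Pool.Agent.Lib.P92898d.Main

/-! Adding finitely many large terms `w * b 0, ..., w * b (n-1)` to a series. -/

open Cardinal Set Filter Topology

namespace Pool.Agent.Lib.RNG

open Pool.Agent.Lib.P92898d

/-- number of subsets `J` of `I` with `∑_{i ∈ J} b i = s` -/
def reps (I : Finset ℕ) (b : ℕ → ℤ) (s : ℤ) : ℕ :=
  (I.powerset.filter (fun J => ∑ i ∈ J, b i = s)).card

theorem reps_succ (n : ℕ) (b : ℕ → ℤ) (s : ℤ) :
    reps (Finset.range (n + 1)) b s = reps (Finset.range n) b s + reps (Finset.range n) b (s - b n) := by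
  unfold reps
  rw [Finset.card_filter, Finset.card_filter, Finset.card_filter, Finset.range_add_one,
    Finset.sum_powerset_insert (by simp)]
  congr 1
  apply Finset.sum_congr rfl
  intro J hJ
  have hn : n ∉ J := fun h => by
    have := Finset.mem_powerset.1 hJ h
    simp at this
  rw [Finset.sum_insert hn]
  congr 1
  apply propext
  constructor <;> intro h <;> linarith

theorem reps_zero (b : ℕ → ℤ) (s : ℤ) : reps (Finset.range 0) b s = if s = 0 then 1 else 0 := by
  unfold reps
  by_cases h : s = 0
  · subst h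
    rw [if_pos rfl, Finset.range_zero, Finset.powerset_empty, Finset.filter_true_of_mem,
      Finset.card_singleton]
    intro J hJ
    rw [Finset.mem_singleton.1 hJ, Finset.sum_empty]
  · have : (0 : ℤ) ≠ s := fun h' => h h'.symm
    rw [if_neg h, Finset.range_zero, Finset.powerset_empty, Finset.card_eq_zero,
      Finset.filter_eq_empty_iff]
    intro J hJ
    rw [Finset.mem_singleton.1 hJ, Finset.sum_empty]
    exact this

theorem reps_pos_zero (n : ℕ) (b : ℕ → ℤ) : 0 < reps (Finset.range n) b 0 := by
  unfold reps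
  rw [Finset.card_pos]
  exact ⟨∅, by simp⟩

/-- Put the terms `w * b 0, ..., w * b (n-1)` in front of `x`. -/
noncomputable def pre (w : ℝ) (b : ℕ → ℤ) (x : ℕ → ℝ) : ℕ → ℕ → ℝ
  | 0 => x
  | (n+1) => cns (w * b n) (pre w b x n)

theorem summable_pre {w : ℝ} {b : ℕ → ℤ} {x : ℕ → ℝ} (hx : Summable (fun n => |x n|)) (n : ℕ) :
    Summable (fun k => |pre w b x n k|) := by
  induction n with
  | zero => exact hx
  | succ n ih => exact summable_cns ih

theorem cardF_pre {w S : ℝ} (hw : 0 < w) (hS : 2 * S < w) {b : ℕ → ℤ} {x : ℕ → ℝ}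
    (hx : Summable (fun n => |x n|)) (hF : ∀ t, S < |t| → cardF x t = 0) (n : ℕ) (t : ℝ) :
    cardF (pre w b x n) t =
      (reps (Finset.range n) b (round (t / w)) : Cardinal.{0}) * cardF x (t - w * round (t / w)) := by
  induction n generalizing t with
  | zero =>
    rw [reps_zero]
    by_cases h : round (t / w) = 0
    · simp [h, pre]
    · have h1 : cardF x t = 0 := by
        apply hF
        have h2 : (1 / 2 : ℝ) ≤ |t / w| := by
          by_contra hc
          push Not at hc
          rw [abs_lt] at hc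
          apply h
          rw [round_eq_zero_iff]
          constructor <;> linarith [hc.1, hc.2]
        rw [abs_div, abs_of_pos hw, le_div_iff₀ hw] at h2
        linarith
      simp [h, pre, h1]
  | succ n ih =>
    show cardF (cns (w * b n) (pre w b x n)) t = _
    rw [cardF_cns (summable_pre hx n), ih, ih, reps_succ]
    have e : (t - w * b n) / w = t / w - b n := by
      field_simp
    rw [e, round_sub_intCast]
    push_cast
    have e2 : t - w * b n - w * ((round (t / w) : ℝ) - b n) = t - w * round (t / w) := by ring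
    rw [e2]
    ring

/-- Direct sum with a finite block: all products `reps b s * κ` occur. -/
theorem isRange_mul {x : ℕ → ℝ} (hx : Summable (fun n => |x n|)) (b : ℕ → ℤ) (n : ℕ)
    {D : Set Cardinal.{0}} (hD : Set.range (cardF x) = insert 0 D) :
    IsRange (insert 0 {κ | ∃ s : ℤ, ∃ d ∈ D, κ = (reps (Finset.range n) b s : Cardinal.{0}) * d}) := by
  set S := ∑' n, |x n| with hSdef
  have hS0 : 0 ≤ S := tsum_nonneg (fun n => abs_nonneg _)
  have habs : ∀ ε, |ssum x ε| ≤ S := by
    intro ε
    unfold ssum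
    rw [← Real.norm_eq_abs]
    apply tsum_of_norm_bounded hx.hasSum
    intro n
    split_ifs <;> simp
  have hF : ∀ t, S < |t| → cardF x t = 0 := by
    intro t ht
    unfold cardF
    rw [Cardinal.mk_eq_zero_iff]
    constructor
    rintro ⟨ε, hε⟩
    rw [Set.mem_ofPred_eq] at hε
    have := habs ε
    rw [hε] at this
    linarith
  set w := 2 * S + 1 with hw
  have hw0 : 0 < w := by linarith
  refine ⟨pre w b x n, summable_pre hx n, ?_⟩
  ext κ
  rw [Set.mem_range, Set.mem_insert_iff, Set.mem_ofPred_eq]
  constructor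
  · rintro ⟨t, rfl⟩
    rw [cardF_pre hw0 (by linarith) hx hF]
    have h1 : cardF x (t - w * round (t / w)) ∈ insert 0 D := by rw [← hD]; exact ⟨_, rfl⟩
    rcases h1 with h1 | h1
    · left; rw [h1, mul_zero]
    · right; exact ⟨_, _, h1, rfl⟩
  · rintro (rfl | ⟨s, d, hd, rfl⟩)
    · obtain ⟨t, ht⟩ := cardF_zero_exists (summable_pre (w := w) (b := b) hx n)
      exact ⟨t, ht⟩
    · have h1 : d ∈ Set.range (cardF x) := by rw [hD]; exact Or.inr hd
      obtain ⟨t, rfl⟩ := h1
      by_cases ht : S < |t|
      · rw [hF t ht, mul_zero]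
        obtain ⟨t, ht⟩ := cardF_zero_exists (summable_pre (w := w) (b := b) hx n)
        exact ⟨t, ht⟩
      · push Not at ht
        refine ⟨w * s + t, ?_⟩
        rw [cardF_pre hw0 (by linarith) hx hF]
        have e : (w * s + t) / w = s + t / w := by field_simp
        have e2 : round (t / w) = 0 := by
          rw [round_eq_zero_iff]
          rw [abs_le] at ht
          constructor
          · rw [le_div_iff₀ hw0]; linarith [ht.1]
          · rw [div_lt_iff₀ hw0]; linarith [ht.2]
        rw [e, round_intCast_add, e2]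
        simp

/-- a series all of whose subsums are different -/
theorem exists_injective : ∃ x : ℕ → ℝ, Summable (fun n => |x n|) ∧
    Set.range (cardF x) = insert 0 {1} := by
  have hx : Summable (fun n : ℕ => |(1 / 3 : ℝ) ^ n|) := by
    have h : Summable (fun n : ℕ => (1 / 3 : ℝ) ^ n) :=
      summable_geometric_of_lt_one (by norm_num) (by norm_num)
    refine h.congr (fun n => ?_)
    rw [abs_of_nonneg (by positivity)]
  have h0 : ∀ n : ℕ, 0 < (1 / 3 : ℝ) ^ n := fun n => by positivity
  have hinj : ∀ ε δ, ssum (fun n => (1 / 3 : ℝ) ^ n) ε = ssum (fun n => (1 / 3 : ℝ) ^ n) δ → ε = δ := by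
    intro ε δ h
    have key : ∀ ε, ssum (fun n => (1 / 3 : ℝ) ^ n) ε = Cardinal.cantorFunction (1 / 3) ε := by
      intro ε
      unfold ssum Cardinal.cantorFunction
      congr 1
      funext n
      unfold Cardinal.cantorFunctionAux
      cases ε n <;> simp
    rw [key, key] at h
    exact Cardinal.cantorFunction_injective (by norm_num) (by norm_num) h
  refine ⟨fun n => (1 / 3 : ℝ) ^ n, hx, ?_⟩
  ext κ
  rw [Set.mem_range, Set.mem_insert_iff, Set.mem_singleton_iff]
  constructor
  · rintro ⟨t, rfl⟩
    by_cases h : ∃ ε, ssum (fun n => (1 / 3 : ℝ) ^ n) ε = t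
    · right
      obtain ⟨ε, hε⟩ := h
      unfold cardF
      rw [Cardinal.eq_one_iff_unique]
      refine ⟨⟨?_⟩, ⟨⟨ε, hε⟩⟩⟩
      rintro ⟨a, ha⟩ ⟨b, hb⟩
      rw [Subtype.mk.injEq]
      exact hinj a b (ha.trans hb.symm)
    · left
      unfold cardF
      rw [Cardinal.mk_eq_zero_iff]
      exact ⟨fun ⟨ε, hε⟩ => h ⟨ε, hε⟩⟩
  · rintro (rfl | rfl)
    · exact cardF_zero_exists hx
    · exact ⟨0, cardF_zero hx h0⟩

/-- For every finite sequence of integers the numbers of representations form a range. -/
theorem isRange_reps (b : ℕ → ℤ) (n : ℕ) :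
    IsRange (insert 0 {κ | ∃ s : ℤ, κ = (reps (Finset.range n) b s : Cardinal.{0})}) := by
  obtain ⟨x, hx, hr⟩ := exists_injective
  have h := isRange_mul hx b n hr
  have e : {κ : Cardinal.{0} | ∃ s : ℤ, ∃ d ∈ ({1} : Set Cardinal.{0}),
      κ = (reps (Finset.range n) b s : Cardinal.{0}) * d}
      = {κ | ∃ s : ℤ, κ = (reps (Finset.range n) b s : Cardinal.{0})} := by
    ext κ
    simp
  rwa [e] at h

end Pool.Agent.Lib.RNG

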