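import Pool.Agent.Lib.RNG.Types
import Pool.Agent.Lib.RNG.Poly

/-! The three-element ranges without infinite cardinals. -/

open Cardinal Set Filter Topology

namespace Pool.Agent.Lib.RNG

open Pool.Agent.Lib.P92898d

theorem isRange_two_pow_mul {C : Set Cardinal.{0}} (h : IsRange C) (k : ℕ) :
    IsRange ((fun κ => ((2 ^ k : ℕ) : Cardinal.{0}) * κ) '' C) := by
  obtain ⟨x, hx, rfl⟩ := h
  obtain ⟨y, hy, hyx⟩ := prepend_zeros hx k
  refine ⟨y, hy, ?_⟩
  rw [← Set.range_comp]
  congr 1
  funext t
  exact hyx t

theorem isRange_012 : IsRange {0, 1, 2} := by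
  have h := isRange_reps (fun _ => 1) 2
  have e : (insert 0 {κ : Cardinal.{0} | ∃ s : ℤ, κ = (reps (Finset.range 2) (fun _ => 1) s : Cardinal.{0})})
      = {0, 1, 2} := by
    ext κ
    simp only [Set.mem_insert_iff, Set.mem_ofPred_eq, Set.mem_singleton_iff, reps_succ, reps_zero]
    constructor
    · rintro (rfl | ⟨s, rfl⟩)
      · simp
      · by_cases h0 : s = 0
        · subst h0; simp
        · by_cases h1 : s = 1
          · subst h1
            right; right
            norm_num
          · by_cases h2 : s = 2
            · subst h2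
              right; left
              norm_num
            · left
              have e1 : ¬ (s - 1 = 0) := by omega
              have e2 : ¬ (s - 1 - 1 = 0) := by omega
              simp [h0, e1, e2]
    · rintro (rfl | rfl | rfl)
      · left; rfl
      · right; exact ⟨0, by norm_num⟩
      · right; exact ⟨1, by norm_num⟩
  rwa [e] at h

theorem isRange_013 : IsRange {0, 1, 3} := by
  have h := isRange_reps (fun _ => 1) 3
  have e : (insert 0 {κ : Cardinal.{0} | ∃ s : ℤ, κ = (reps (Finset.range 3) (fun _ => 1) s : Cardinal.{0})})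
      = {0, 1, 3} := by
    ext κ
    simp only [Set.mem_insert_iff, Set.mem_ofPred_eq, Set.mem_singleton_iff, reps_succ, reps_zero]
    constructor
    · rintro (rfl | ⟨s, rfl⟩)
      · simp
      · by_cases h0 : s = 0
        · subst h0; simp
        · by_cases h1 : s = 1
          · subst h1
            right; right
            norm_num
          · by_cases h2 : s = 2
            · subst h2
              right; right
              norm_num
            · by_cases h3 : s = 3
              · subst h3
                right; left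
                norm_num
              · left
                have e1 : ¬ (s - 1 = 0) := by omega
                have e2 : ¬ (s - 1 - 1 = 0) := by omega
                have e3 : ¬ (s - 1 - 1 - 1 = 0) := by omega
                simp [h0, e1, e2, e3]
    · rintro (rfl | rfl | rfl)
      · left; rfl
      · right; exact ⟨0, by norm_num⟩
      · right; exact ⟨1, by norm_num⟩
  rwa [e] at h

theorem three_of_isRange {a b : ℕ} (ha : 0 < a) (hab : a < b)
    (h : IsRange {0, (a : Cardinal.{0}), (b : Cardinal.{0})}) :
    ∃ k : ℕ, a = 2 ^ k ∧ (b = 2 * 2 ^ k ∨ b = 3 * 2 ^ k) := by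
  obtain ⟨x, hx, hr⟩ := h
  have hval : ∀ t, cardF x t = 0 ∨ cardF x t = a ∨ cardF x t = b := by
    intro t
    have : cardF x t ∈ Set.range (cardF x) := ⟨t, rfl⟩
    rw [hr] at this
    simpa using this
  obtain ⟨ta, hta⟩ : ∃ t, cardF x t = a := by
    have : (a : Cardinal.{0}) ∈ Set.range (cardF x) := by rw [hr]; simp
    exact this
  obtain ⟨tb, htb⟩ : ∃ t, cardF x t = b := by
    have : (b : Cardinal.{0}) ∈ Set.range (cardF x) := by rw [hr]; simp
    exact this
  -- finitely many zeros
  set R : ℝ → Cardinal.{0} := fun t => #{δ : {n // ¬ x n = 0} → Bool | rsum x δ = t} with hR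
  have hmul : ∀ t, cardF x t = #({n // x n = 0} → Bool) * R t := fun t => cardF_eq_mul x t
  have hRa : R ta ≠ 0 := by
    intro h0
    rw [hmul, h0, mul_zero] at hta
    exact ha.ne' (by exact_mod_cast hta.symm)
  have hZ : #({n // x n = 0} → Bool) < ℵ₀ := by
    calc #({n // x n = 0} → Bool) ≤ #({n // x n = 0} → Bool) * R ta :=
          Cardinal.le_mul_right hRa
      _ = a := by rw [← hmul, hta]
      _ < ℵ₀ := Cardinal.natCast_lt_aleph0
  have hfin : Finite {n // x n = 0} := by
    by_contra hcon
    have hinf : Infinite {n // x n = 0} := not_finite_iff_infinite.1 hcon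
    have h2 : #({n // x n = 0} → Bool) = 𝔠 := by
      rw [← Cardinal.power_def]
      simp
    rw [h2] at hZ
    exact absurd hZ (not_lt.2 Cardinal.aleph0_le_continuum)
  have := Fintype.ofFinite {n // x n = 0}
  have h2 : #({n // x n = 0} → Bool) = ((2 ^ Nat.card {n // x n = 0} : ℕ) : Cardinal.{0}) := by
    simp [Nat.card_eq_fintype_card]
  set P : ℕ := 2 ^ Nat.card {n // x n = 0} with hP
  have hPpos : 0 < P := by positivity
  rw [h2] at hmul
  -- the values of R are finite
  have hRfin : ∀ t, R t < ℵ₀ := by
    intro t
    have hP1 : (1 : Cardinal.{0}) ≤ (P : Cardinal.{0}) := by exact_mod_cast hPpos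
    calc R t = 1 * R t := (one_mul _).symm
      _ ≤ P * R t := by gcongr
      _ = cardF x t := (hmul t).symm
      _ < ℵ₀ := by
        rcases hval t with h | h | h
        · rw [h]; exact Cardinal.aleph0_pos
        · rw [h]; exact Cardinal.natCast_lt_aleph0
        · rw [h]; exact Cardinal.natCast_lt_aleph0
  choose r hr' using fun t => Cardinal.lt_aleph0.1 (hRfin t)
  have hN : ∀ t, P * r t = 0 ∨ P * r t = a ∨ P * r t = b := by
    intro t
    have h3 := hval t
    rw [hmul, hr'] at h3
    rcases h3 with h | h | h
    · left; exact_mod_cast h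
    · right; left; exact_mod_cast h
    · right; right; exact_mod_cast h
  have hNa : P * r ta = a := by
    rw [hmul, hr'] at hta; exact_mod_cast hta
  have hNb : P * r tb = b := by
    rw [hmul, hr'] at htb; exact_mod_cast htb
  obtain ⟨t1, ht1⟩ := exists_unique_R hx
  have hr1 : r t1 = 1 := by
    have h3 := hr' t1
    rw [hR] at h3
    simp only at h3
    rw [ht1] at h3
    exact_mod_cast h3.symm
  have hra : 0 < r ta := by
    rcases Nat.eq_zero_or_pos (r ta) with h | h
    · rw [h] at hNa; omega
    · exact h
  have hPa : P = a := by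
    have h3 := hN t1
    rw [hr1, mul_one] at h3
    have h4 : P ≤ a := by rw [← hNa]; exact Nat.le_mul_of_pos_right _ hra
    omega
  -- fibres
  set y : {n // ¬ x n = 0} → ℝ := fun n => x n with hy
  have hys : Summable (fun n => |y n|) := hx.subtype _
  have hy0 : ∀ i, y i ≠ 0 := fun i => i.2
  have hfibR : ∀ t, #(fib y t) = r t := by
    intro t
    rw [← hr' t]
    rfl
  have hfibfin : ∀ t, (fib y t).Finite := by
    intro t
    rw [← Cardinal.lt_aleph0_iff_set_finite, hfibR]
    exact Cardinal.natCast_lt_aleph0
  have hfibc : ∀ t, (fib y t).ncard = r t := by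
    intro t
    have := hfibR t
    rw [← Set.cast_ncard (hfibfin t)] at this
    exact_mod_cast this
  have hm3 : r tb ≤ 3 := by
    by_contra hcon
    push Not at hcon
    refine no_m hys hy0 (m := r tb) (by omega) (fun t => ⟨hfibfin t, ?_⟩) tb (hfibc tb)
    rw [hfibc]
    rcases hN t with h | h | h
    · left
      have : r t = 0 := by
        rcases Nat.mul_eq_zero.1 h with h' | h'
        · omega
        · exact h'
      omega
    · left
      have h5 : P * r t = P * 1 := by rw [mul_one, h, hPa]
      have := Nat.eq_of_mul_eq_mul_left hPpos h5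
      omega
    · right
      have h5 : P * r t = P * r tb := by rw [h, hNb]
      exact Nat.eq_of_mul_eq_mul_left hPpos h5
  refine ⟨Nat.card {n // x n = 0}, by rw [← hP, hPa], ?_⟩
  rw [← hP]
  have h5 : 1 < r tb := by
    by_contra hcon
    push Not at hcon
    have : P * r tb ≤ P * 1 := Nat.mul_le_mul_left _ hcon
    omega
  interval_cases hrb : r tb
  · left; rw [← hNb]; ring
  · right; rw [← hNb]; ring

/-- `{0, a, b}` with `0 < a < b` integers is a range iff `a = 2 ^ k` and `b = 2 a` or `b = 3 a`. -/
theorem three_iff {a b : ℕ} (ha : 0 < a) (hab : a < b) :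
    IsRange {0, (a : Cardinal.{0}), (b : Cardinal.{0})} ↔
      ∃ k : ℕ, a = 2 ^ k ∧ (b = 2 * 2 ^ k ∨ b = 3 * 2 ^ k) := by
  constructor
  · exact three_of_isRange ha hab
  · rintro ⟨k, rfl, rfl | rfl⟩
    · have h := isRange_two_pow_mul isRange_012 k
      have e : (fun κ => ((2 ^ k : ℕ) : Cardinal.{0}) * κ) '' ({0, 1, 2} : Set Cardinal.{0})
          = {0, ((2 ^ k : ℕ) : Cardinal.{0}), ((2 * 2 ^ k : ℕ) : Cardinal.{0})} := by
        rw [Set.image_insert_eq, Set.image_pair]
        push_cast
        rw [mul_zero, mul_one, mul_comm]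
      rwa [e] at h
    · have h := isRange_two_pow_mul isRange_013 k
      have e : (fun κ => ((2 ^ k : ℕ) : Cardinal.{0}) * κ) '' ({0, 1, 3} : Set Cardinal.{0})
          = {0, ((2 ^ k : ℕ) : Cardinal.{0}), ((3 * 2 ^ k : ℕ) : Cardinal.{0})} := by
        rw [Set.image_insert_eq, Set.image_pair]
        push_cast
        rw [mul_zero, mul_one, mul_comm]
      rwa [e] at h

end Pool.Agent.Lib.RNG
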