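import Pool.Agent.Lib.RNG.Union
import Pool.Agent.Lib.RNG.Three

/-! A range that contains `ℵ₀` but not the continuum. -/

open Cardinal Set Filter Topology

namespace Pool.Agent.Lib.RNG

open Pool.Agent.Lib.P92898d

/-- the functionals `e_r + e_s` -/
def Cp : Set (ℕ →₀ ℤ) :=
  {f | (∃ r s : ℕ, r ≠ s ∧ f = Finsupp.single r 1 + Finsupp.single s 1) ∨ f = 0}

theorem countable_Cp : Cp.Countable := Set.to_countable _

variable {c : ℕ → ℕ →₀ ℤ} {β : ℕ → ℕ → Bool} {γ : ℕ → Bool}

theorem zero_feas' : (fun _ => 0) ∈ Feas c β γ := by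
  refine ⟨fun r j => ?_, fun n => ?_⟩
  · simpa using b2_cases _
  · have : dot (c n) (fun _ => 0) = 0 := by
      simp [dot, Finsupp.sum]
    rw [this, add_zero]
    exact b2_cases _

theorem feas_countable (hc : Cp = Set.range c) : (Feas c β γ).Countable := by
  classical
  have h1 : ∀ α ∈ Feas c β γ, (Function.support α).Finite := by
    intro α h
    have hpair : ∀ r s : ℕ, r ≠ s → |α r + α s| ≤ 1 := by
      intro r s hrs
      have hf : Finsupp.single r 1 + Finsupp.single s 1 ∈ Cp := Or.inl ⟨r, s, hrs, rfl⟩
      rw [hc] at hf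
      obtain ⟨n, hn⟩ := hf
      have := bit_abs (h.2 n)
      rw [hn, dot_add, dot_single, dot_single] at this
      simpa using this
    have hab : ∀ r, |α r| ≤ 1 := fun r => bit_abs (h.1 r 0)
    by_contra hinf
    -- three different indices in the support, two of them with the same value
    have hinf' : (Function.support α).Infinite := hinf
    obtain ⟨T, hT, hTc⟩ := hinf'.exists_subset_card_eq 3
    obtain ⟨r, s, t, hrs, hrt, hst, hTe⟩ := Finset.card_eq_three.1 hTc
    have hr : α r ≠ 0 := hT (by rw [hTe]; simp)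
    have hs : α s ≠ 0 := hT (by rw [hTe]; simp)
    have ht : α t ≠ 0 := hT (by rw [hTe]; simp)
    have a1 := abs_le.1 (hab r)
    have a2 := abs_le.1 (hab s)
    have a3 := abs_le.1 (hab t)
    have p1 := abs_le.1 (hpair r s hrs)
    have p2 := abs_le.1 (hpair r t hrt)
    have p3 := abs_le.1 (hpair s t hst)
    omega
  have h2 : Feas c β γ ⊆ Set.range (fun f : ℕ →₀ ℤ => (f : ℕ → ℤ)) := by
    intro α h
    exact ⟨Finsupp.ofSupportFinite α (h1 α h), rfl⟩
  exact (Set.countable_range _).mono h2

/-- value with the relations of `P` switched on -/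
theorem feas_attained' (hc : Cp = Set.range c) (P : Set ℕ) [DecidablePred (· ∈ P)] :
    Feas c (fun r j => if r ∈ P then false else decide (j = 0)) (fun _ => false)
      = insert (fun _ => 0) ((fun r : ℕ => Pi.single (M := fun _ => ℤ) r 1) '' P) := by
  classical
  ext α
  constructor
  · intro h
    have hout : ∀ r, r ∉ P → α r = 0 := by
      intro r hr
      have h0 := h.1 r 0
      have h1 := h.1 r 1
      simp only [if_neg hr] at h0 h1
      simp [b2] at h0 h1
      omega
    have hin : ∀ r, α r = 0 ∨ α r = 1 := by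
      intro r
      by_cases hr : r ∈ P
      · have h0 := h.1 r 0
        simp only [if_pos hr] at h0
        simpa [b2] using h0
      · left; exact hout r hr
    have hpair : ∀ r s : ℕ, r ≠ s → α r = 0 ∨ α s = 0 := by
      intro r s hrs
      have hf : Finsupp.single r 1 + Finsupp.single s 1 ∈ Cp := Or.inl ⟨r, s, hrs, rfl⟩
      rw [hc] at hf
      obtain ⟨n, hn⟩ := hf
      have := bit_abs (h.2 n)
      rw [hn, dot_add, dot_single, dot_single, one_mul, one_mul, abs_le] at this
      have h1 := hin r
      have h2 := hin s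
      omega
    by_cases hz : ∀ r, α r = 0
    · left; exact funext hz
    · right
      push Not at hz
      obtain ⟨r, hr⟩ := hz
      refine ⟨r, ?_, ?_⟩
      · by_contra hcon
        exact hr (hout r hcon)
      · funext s
        by_cases hs : s = r
        · subst hs
          simp only [Pi.single_eq_same]
          exact ((hin s).resolve_left hr).symm
        · simp only [Pi.single_eq_of_ne hs]
          exact ((hpair s r hs).resolve_right hr).symm
  · intro h
    have h1 : (∀ r, α r = 0 ∨ α r = 1) ∧ (∀ r, r ∉ P → α r = 0) ∧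
        (∀ r s : ℕ, r ≠ s → α r = 0 ∨ α s = 0) := by
      rcases h with rfl | ⟨r, hr, rfl⟩
      · exact ⟨fun _ => Or.inl rfl, fun _ _ => rfl, fun _ _ _ => Or.inl rfl⟩
      · refine ⟨fun s => ?_, fun s hs => ?_, fun s s' hss => ?_⟩
        · by_cases hs : s = r
          · subst hs; right; simp
          · left; simp [Pi.single_eq_of_ne hs]
        · have : s ≠ r := fun h => hs (h ▸ hr)
          simp [Pi.single_eq_of_ne this]
        · by_cases hs : s = r
          · right
            have : s' ≠ r := fun h => hss (hs.trans h.symm)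
            simp [Pi.single_eq_of_ne this]
          · left; simp [Pi.single_eq_of_ne hs]
    obtain ⟨k1, k2, k3⟩ := h1
    refine ⟨fun r j => ?_, fun n => ?_⟩
    · by_cases hr : r ∈ P
      · simp only [if_pos hr]
        simpa [b2] using k1 r
      · rw [k2 r hr, add_zero]
        exact b2_cases _
    · have e : b2 false = 0 := by simp [b2]
      rw [e, zero_add]
      have hf : c n ∈ Cp := by rw [hc]; exact ⟨n, rfl⟩
      rcases hf with ⟨r, s, hrs, hn⟩ | hn
      · rw [hn, dot_add, dot_single, dot_single, one_mul, one_mul]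
        have h2 := k1 r
        have h3 := k1 s
        have h4 := k3 r s hrs
        omega
      · rw [hn, dot_zero]
        left; rfl

theorem isRange_nat_aleph0 : IsRange (insert ℵ₀ (Set.range (fun n : ℕ => (n : Cardinal.{0})))) := by
  classical
  obtain ⟨c, hc⟩ := countable_Cp.exists_eq_range ⟨0, Or.inr rfl⟩
  have h := master c (fun _ => 0) 0
  have hreps : ∀ s : ℤ, reps (Finset.range 0) (fun _ => 0) s = if s = 0 then 1 else 0 :=
    fun s => reps_zero _ s
  have hsize : ∀ P : Set ℕ, ∃ (β : ℕ → ℕ → Bool) (γ : ℕ → Bool),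
      #(Feas c β γ) = #P + 1 := by
    intro P
    refine ⟨(fun r j => if r ∈ P then false else decide (j = 0)), (fun _ => false), ?_⟩
    rw [feas_attained' hc P, Cardinal.mk_insert, Cardinal.mk_image_eq]
    · intro r s hrs
      by_contra hne
      have := congrFun hrs r
      simp only [Pi.single_eq_same] at this
      rw [Pi.single_eq_of_ne hne] at this
      exact one_ne_zero this
    · rintro ⟨r, -, hr⟩
      have := congrFun hr r
      simp at this
  have e : (insert 0 {κ : Cardinal.{0} | ∃ s : ℤ, ∃ (β : ℕ → ℕ → Bool) (γ : ℕ → Bool),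
      κ = (reps (Finset.range 0) (fun _ => 0) s : Cardinal.{0}) * #(Feas c β γ)})
      = insert ℵ₀ (Set.range (fun n : ℕ => (n : Cardinal.{0}))) := by
    ext κ
    rw [Set.mem_insert_iff, Set.mem_insert_iff, Set.mem_ofPred_eq, Set.mem_range]
    constructor
    · rintro (rfl | ⟨s, β, γ, rfl⟩)
      · right; exact ⟨0, by simp⟩
      · rw [hreps]
        by_cases hs : s = 0
        · rw [if_pos hs, Nat.cast_one, one_mul]
          have hcount : #(Feas c β γ) ≤ ℵ₀ := by
            rw [Cardinal.mk_le_aleph0_iff]
            exact (feas_countable hc).to_subtype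
          rcases hcount.lt_or_eq with h1 | h1
          · right
            obtain ⟨n, hn⟩ := Cardinal.lt_aleph0.1 h1
            exact ⟨n, hn.symm⟩
          · left; exact h1
        · rw [if_neg hs, Nat.cast_zero, zero_mul]
          right; exact ⟨0, by simp⟩
    · rintro (rfl | ⟨n, rfl⟩)
      · right
        obtain ⟨β, γ, h1⟩ := hsize Set.univ
        refine ⟨0, β, γ, ?_⟩
        rw [hreps, if_pos rfl, h1]
        simp
      · rcases n with _ | n
        · left; simp
        · right
          obtain ⟨β, γ, h1⟩ := hsize (Set.Iio n)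
          refine ⟨0, β, γ, ?_⟩
          rw [hreps, if_pos rfl, h1]
          simp
  rwa [e] at h

/-- `{2 ^ k * n : n ∈ ℕ} ∪ {ℵ₀}` is a range. -/
theorem isRange_mul_aleph0 (k : ℕ) :
    IsRange (insert ℵ₀ (Set.range (fun n : ℕ => ((2 ^ k * n : ℕ) : Cardinal.{0})))) := by
  have h := isRange_two_pow_mul isRange_nat_aleph0 k
  have e : (fun κ => ((2 ^ k : ℕ) : Cardinal.{0}) * κ) ''
      (insert ℵ₀ (Set.range (fun n : ℕ => (n : Cardinal.{0}))))
      = insert ℵ₀ (Set.range (fun n : ℕ => ((2 ^ k * n : ℕ) : Cardinal.{0}))) := by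
    rw [Set.image_insert_eq, ← Set.range_comp]
    have h2a : ((2 ^ k : ℕ) : Cardinal.{0}) * ℵ₀ = ℵ₀ := Cardinal.nat_mul_aleph0 (by positivity)
    rw [h2a]
    congr 2
    funext n
    simp only [Function.comp_apply]
    push_cast
    rfl
  rwa [e] at h

end Pool.Agent.Lib.RNG
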