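import Mathlib

/-! Fast decreasing sequences: bounded integer combinations vanish only trivially. -/

open Filter Topology

namespace Pool.Agent.Lib.RNG

/-- The sequence `τ l = ∏_{j ≤ l} 1 / (4 (M j + 1))`. -/
noncomputable def tau (M : ℕ → ℕ) : ℕ → ℝ
  | 0 => 1 / (4 * (M 0 + 1))
  | (l+1) => tau M l / (4 * (M (l+1) + 1))

theorem tau_pos (M : ℕ → ℕ) (l : ℕ) : 0 < tau M l := by
  induction l with
  | zero => unfold tau; positivity
  | succ l ih => unfold tau; positivity

theorem tau_mul (M : ℕ → ℕ) (l : ℕ) : ((M (l+1) : ℝ) + 1) * tau M (l+1) = tau M l / 4 := by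
  rw [tau]
  have : ((M (l+1) : ℝ) + 1) ≠ 0 := by positivity
  field_simp

theorem tau_succ_le (M : ℕ → ℕ) (l : ℕ) : tau M (l+1) ≤ tau M l / 4 := by
  rw [← tau_mul]
  have h := tau_pos M (l+1)
  have h2 : (0 : ℝ) ≤ M (l+1) := Nat.cast_nonneg _
  nlinarith

theorem tau_add_le (M : ℕ → ℕ) (l k : ℕ) : tau M (l+k) ≤ tau M l * (1/4) ^ k := by
  induction k with
  | zero => simp
  | succ k ih =>
    have h := tau_succ_le M (l+k)
    rw [← add_assoc, pow_succ]
    linarith

theorem bound_le (M : ℕ → ℕ) (l k : ℕ) :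
    ((M (l+(k+1)) : ℝ) + 1) * tau M (l+(k+1)) ≤ (tau M l / 4) * (1/4) ^ k := by
  rw [← add_assoc, tau_mul]
  have h := tau_add_le M l k
  linarith

theorem summable_bound (M : ℕ → ℕ) : Summable (fun l => ((M l : ℝ) + 1) * tau M l) := by
  rw [← summable_nat_add_iff 1]
  have hs : Summable (fun k : ℕ => (tau M 0 / 4) * (1/4 : ℝ) ^ k) :=
    (summable_geometric_of_lt_one (by norm_num) (by norm_num)).mul_left _
  refine Summable.of_nonneg_of_le (fun k => ?_) (fun k => ?_) hs
  · have := tau_pos M (k+1)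
    positivity
  · have := bound_le M 0 k
    simpa using this

theorem summable_comb {M : ℕ → ℕ} {a : ℕ → ℤ} (ha : ∀ l, |a l| ≤ M l) :
    Summable (fun l => (a l : ℝ) * tau M l) := by
  apply Summable.of_norm_bounded (summable_bound M)
  intro l
  rw [norm_mul, Real.norm_eq_abs, Real.norm_eq_abs, abs_of_pos (tau_pos M l)]
  have h : |(a l : ℝ)| ≤ (M l : ℝ) := by
    have := ha l
    have h2 : ((|a l| : ℤ) : ℝ) ≤ ((M l : ℤ) : ℝ) := by exact_mod_cast this
    simpa using h2
  have := tau_pos M l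
  nlinarith

/-- Independence. -/
theorem tau_indep {M : ℕ → ℕ} {a : ℕ → ℤ} (ha : ∀ l, |a l| ≤ M l)
    (h0 : ∑' l, (a l : ℝ) * tau M l = 0) : ∀ l, a l = 0 := by
  intro l
  induction l using Nat.strong_induction_on with
  | _ l ih =>
    by_contra hne
    have hs := summable_comb ha
    have h1 := hs.sum_add_tsum_nat_add (l+1)
    rw [h0, Finset.sum_range_succ, Finset.sum_eq_zero (fun i hi => by
      rw [ih i (Finset.mem_range.1 hi)]; simp), zero_add] at h1
    have hgeo : HasSum (fun k : ℕ => (tau M l / 4) * (1/4 : ℝ) ^ k) ((tau M l / 4) * (4/3)) := by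
      have := (hasSum_geometric_of_lt_one (r := (1/4 : ℝ)) (by norm_num) (by norm_num)).mul_left
        (tau M l / 4)
      have e : (1 - 1/4 : ℝ)⁻¹ = 4/3 := by norm_num
      rw [e] at this
      exact this
    have h2 : |∑' k, (a (k+(l+1)) : ℝ) * tau M (k+(l+1))| ≤ (tau M l / 4) * (4/3) := by
      rw [← Real.norm_eq_abs]
      apply tsum_of_norm_bounded hgeo
      intro k
      have h3 := bound_le M l k
      have e : k + (l + 1) = l + (k + 1) := by ring
      rw [e, norm_mul, Real.norm_eq_abs, Real.norm_eq_abs, abs_of_pos (tau_pos M _)]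
      refine le_trans ?_ h3
      have h4 : |(a (l+(k+1)) : ℝ)| ≤ (M (l+(k+1)) : ℝ) := by
        have := ha (l+(k+1))
        have h5 : ((|a (l+(k+1))| : ℤ) : ℝ) ≤ ((M (l+(k+1)) : ℤ) : ℝ) := by exact_mod_cast this
        simpa using h5
      have := tau_pos M (l+(k+1))
      nlinarith
    have h5 : (1 : ℝ) ≤ |(a l : ℝ)| := by
      have : (1 : ℤ) ≤ |a l| := Int.one_le_abs hne
      have h6 : ((1 : ℤ) : ℝ) ≤ ((|a l| : ℤ) : ℝ) := by exact_mod_cast this
      simpa using h6
    have h6 : |(a l : ℝ) * tau M l| ≤ (tau M l / 4) * (4/3) := by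
      have : (a l : ℝ) * tau M l = - ∑' k, (a (k+(l+1)) : ℝ) * tau M (k+(l+1)) := by linarith
      rw [this, abs_neg]
      exact h2
    have hpos := tau_pos M l
    rw [abs_mul, abs_of_pos hpos] at h6
    nlinarith

end Pool.Agent.Lib.RNG
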