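import Pool.Agent.Lib.RNG.StarCount

/-! The criterion for ranges with finite fibres, in terms of lists. -/

open Cardinal Set Filter Topology

namespace Pool.Agent.Lib.RNG

open Pool.Agent.Lib.P92898d

/-- number of ways to obtain `s` as a sum of terms of the list (at different positions) -/
def repsL : List ℤ → ℤ → ℕ
  | [], s => if s = 0 then 1 else 0
  | x :: b, s => repsL b s + repsL b (s - x)

theorem reps_insert {I : Finset ℕ} {i : ℕ} (hi : i ∉ I) (b : ℕ → ℤ) (s : ℤ) :
    reps (insert i I) b s = reps I b s + reps I b (s - b i) := by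
  unfold reps
  rw [Finset.card_filter, Finset.card_filter, Finset.card_filter, Finset.sum_powerset_insert hi]
  congr 1
  apply Finset.sum_congr rfl
  intro J hJ
  have hn : i ∉ J := fun h => hi (Finset.mem_powerset.1 hJ h)
  rw [Finset.sum_insert hn]
  congr 1
  apply propext
  constructor <;> intro h <;> linarith

theorem reps_empty (b : ℕ → ℤ) (s : ℤ) : reps ∅ b s = if s = 0 then 1 else 0 := by
  have := reps_zero b s
  rwa [Finset.range_zero] at this

/-- the shift -/
def sc : ℕ ↪ ℕ := ⟨Nat.succ, Nat.succ_injective⟩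

theorem reps_cons (x : ℤ) (a : List ℤ) (I : Finset ℕ) (t : ℤ) :
    reps (I.map sc) (cf (x :: a)) t = reps I (cf a) t := by
  rw [reps_map]
  unfold reps
  rfl

theorem zero_notMem (I : Finset ℕ) : 0 ∉ I.map sc := by
  intro h
  obtain ⟨j, -, hj⟩ := Finset.mem_map.1 h
  exact Nat.succ_ne_zero j hj

theorem reps_range_list (b : List ℤ) (s : ℤ) :
    reps (Finset.range b.length) (cf b) s = repsL b s := by
  induction b generalizing s with
  | nil =>
    rw [List.length_nil, reps_zero]
    rfl
  | cons x b ih =>
    have h1 : Finset.range (x :: b).length = insert 0 ((Finset.range b.length).map sc) := by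
      ext n
      rw [Finset.mem_range, List.length_cons, Finset.mem_insert, Finset.mem_map]
      constructor
      · intro hn
        rcases n with _ | n
        · left; rfl
        · right; exact ⟨n, Finset.mem_range.2 (by omega), rfl⟩
      · rintro (rfl | ⟨j, hj, rfl⟩)
        · omega
        · have := Finset.mem_range.1 hj
          show j + 1 < _
          omega
    rw [h1, reps_insert (zero_notMem _), reps_cons, reps_cons, ih, ih]
    rfl

/-- subsets of positions are sublists -/
theorem exists_sublist (a : List ℤ) : ∀ I ⊆ Finset.range a.length,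
    ∃ a' : List ℤ, a'.Sublist a ∧ ∀ t, reps I (cf a) t = repsL a' t := by
  classical
  induction a with
  | nil =>
    intro I hI
    have hI0 : I = ∅ := by
      rw [List.length_nil, Finset.range_zero] at hI
      exact Finset.subset_empty.1 hI
    refine ⟨[], List.Sublist.refl _, fun t => ?_⟩
    rw [hI0, reps_empty]
    rfl
  | cons x a ih =>
    intro I hI
    set I' : Finset ℕ := (Finset.range a.length).filter (fun i => i + 1 ∈ I) with hI'
    obtain ⟨a', ha', h⟩ := ih I' (Finset.filter_subset _ _)
    have hmem : ∀ n, n + 1 ∈ I ↔ n ∈ I' := by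
      intro n
      rw [hI', Finset.mem_filter, Finset.mem_range]
      constructor
      · intro hn
        refine ⟨?_, hn⟩
        have := Finset.mem_range.1 (hI hn)
        rw [List.length_cons] at this
        omega
      · exact fun h => h.2
    by_cases h0 : 0 ∈ I
    · have e : I = insert 0 (I'.map sc) := by
        ext n
        rw [Finset.mem_insert, Finset.mem_map]
        rcases n with _ | n
        · simp [h0]
        · rw [hmem]
          constructor
          · intro hn; right; exact ⟨n, hn, rfl⟩
          · rintro (h1 | ⟨j, hj, hj'⟩)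
            · exact absurd h1 (Nat.succ_ne_zero n)
            · have : j = n := Nat.succ_injective hj'
              rwa [← this]
      refine ⟨x :: a', ha'.cons_cons x, fun t => ?_⟩
      rw [e, reps_insert (zero_notMem _), reps_cons, reps_cons, h, h]
      rfl
    · have e : I = I'.map sc := by
        ext n
        rw [Finset.mem_map]
        rcases n with _ | n
        · constructor
          · intro h1; exact absurd h1 h0
          · rintro ⟨j, -, hj⟩
            exact absurd hj (Nat.succ_ne_zero j)
        · rw [hmem]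
          constructor
          · intro hn; exact ⟨n, hn, rfl⟩
          · rintro ⟨j, hj, hj'⟩
            have : j = n := Nat.succ_injective hj'
            rwa [← this]
      refine ⟨a', ha'.cons x, fun t => ?_⟩
      rw [e, reps_cons, h]

/-- sublists are subsets of positions -/
theorem exists_subset {a' a : List ℤ} (h : a'.Sublist a) :
    ∃ I ⊆ Finset.range a.length, ∀ t, reps I (cf a) t = repsL a' t := by
  induction h with
  | slnil =>
    refine ⟨∅, Finset.empty_subset _, fun t => ?_⟩
    rw [reps_empty]
    rfl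
  | @cons a' a x h ih =>
    obtain ⟨I, hI, h1⟩ := ih
    refine ⟨I.map sc, ?_, fun t => ?_⟩
    · intro n hn
      obtain ⟨j, hj, rfl⟩ := Finset.mem_map.1 hn
      have := Finset.mem_range.1 (hI hj)
      rw [Finset.mem_range, List.length_cons]
      show j + 1 < _
      omega
    · rw [reps_cons, h1]
  | @cons_cons a' a x h ih =>
    obtain ⟨I, hI, h1⟩ := ih
    refine ⟨insert 0 (I.map sc), ?_, fun t => ?_⟩
    · intro n hn
      rw [Finset.mem_insert, Finset.mem_map] at hn
      rw [Finset.mem_range, List.length_cons]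
      rcases hn with rfl | ⟨j, hj, rfl⟩
      · omega
      · have := Finset.mem_range.1 (hI hj)
        show j + 1 < _
        omega
    · rw [reps_insert (zero_notMem _), reps_cons, reps_cons, h1, h1]
      rfl

/-- a set containing small numbers has a list for `m` -/
theorem list_of_small {C : Set ℕ} {m : ℕ} (hm : m ∈ C) (hm2 : 2 ≤ m)
    (h : ∀ j, 2 * j ≤ m + 2 → j ∈ C) :
    ∃ a : List ℤ, (∀ a', a'.Sublist a → ∀ t, repsL a' t ∈ C) ∧ ∃ a' : List ℤ, a'.Sublist a ∧ ∃ t, repsL a' t = m := by
  rcases Nat.eq_or_lt_of_le hm2 with h2 | h3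
  · subst h2
    refine ⟨[1, 1], fun a' ha' t => ?_, [1, 1], List.Sublist.refl _, 1, ?_⟩
    · obtain ⟨I, hI, h1⟩ := exists_subset ha'
      rw [← h1 t]
      have := reps_two I hI t
      exact h _ (by omega)
    · decide
  · have e1 : m / 2 * 2 ≤ m := Nat.div_mul_le_self m 2
    have e2 : m < m / 2 * 2 + 2 := by omega
    obtain ⟨a, ha, I, hI, t, ht⟩ := exists_list (m := m) (l := m / 2 + 1) (by omega) (by omega) (by omega)
    refine ⟨a, fun a' ha' t' => ?_, ?_⟩
    · obtain ⟨I', hI', h1⟩ := exists_subset ha'
      rw [← h1 t']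
      rcases ha I' hI' t' with h4 | h4
      · exact h _ (by omega)
      · rw [h4]; exact hm
    · obtain ⟨a', ha', h1⟩ := exists_sublist a I hI
      exact ⟨a', ha', t, by rw [← h1, ht]⟩

/-- **Criterion.** -/
theorem isRange_criterion (b : List ℤ) {C : Set ℕ} (h0 : 0 ∈ C) (h1 : 1 ∈ C)
    (h : ∀ m ∈ C, 2 ≤ m → (∀ j, 2 * j ≤ m + 2 → j ∈ C) ∨
      ∃ a : List ℤ, (∀ a', a'.Sublist a → ∀ t, repsL a' t ∈ C) ∧ ∃ t, repsL a t = m) :
    IsRange {κ : Cardinal.{0} | ∃ s : ℤ, ∃ m ∈ C, κ = ((repsL b s * m : ℕ) : Cardinal.{0})} := by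
  classical
  set A : Set (List ℤ) := {a | ∀ a' : List ℤ, a'.Sublist a → ∀ t, repsL a' t ∈ C} with hA
  have hnil : ([] : List ℤ) ∈ A := by
    intro a' ha' t
    rw [List.sublist_nil.1 ha']
    show (if t = 0 then 1 else 0) ∈ C
    split_ifs
    · exact h1
    · exact h0
  have h2 := isRange_union (cf b) b.length ⟨[], hnil⟩
  have e : (insert 0 {κ : Cardinal.{0} | ∃ s t : ℤ, ∃ a ∈ A, ∃ I ⊆ Finset.range a.length,
      κ = ((reps (Finset.range b.length) (cf b) s * reps I (cf a) t : ℕ) : Cardinal.{0})})
      = {κ : Cardinal.{0} | ∃ s : ℤ, ∃ m ∈ C, κ = ((repsL b s * m : ℕ) : Cardinal.{0})} := by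
    ext κ
    rw [Set.mem_insert_iff, Set.mem_ofPred_eq, Set.mem_ofPred_eq]
    constructor
    · rintro (rfl | ⟨s, t, a, ha, I, hI, rfl⟩)
      · exact ⟨0, 0, h0, by simp⟩
      · obtain ⟨a', ha', h3⟩ := exists_sublist a I hI
        exact ⟨s, repsL a' t, ha a' ha' t, by rw [reps_range_list, h3]⟩
    · rintro ⟨s, m, hm, rfl⟩
      rcases Nat.lt_or_ge m 2 with hlt | hge
      · rcases (by omega : m = 0 ∨ m = 1) with rfl | rfl
        · left; simp
        · right
          refine ⟨s, 0, [], hnil, ∅, Finset.empty_subset _, ?_⟩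
          rw [reps_range_list, reps_empty, if_pos rfl]
      · right
        have hex : ∃ a : List ℤ, (∀ a', a'.Sublist a → ∀ t, repsL a' t ∈ C) ∧
            ∃ a' : List ℤ, a'.Sublist a ∧ ∃ t, repsL a' t = m := by
          rcases h m hm hge with h3 | ⟨a, h3, t, h4⟩
          · exact list_of_small hm hge h3
          · exact ⟨a, h3, a, List.Sublist.refl _, t, h4⟩
        obtain ⟨a, ha, a', ha', t, ht⟩ := hex
        obtain ⟨I, hI, h3⟩ := exists_subset ha'
        refine ⟨s, t, a, ha, I, hI, ?_⟩
        rw [reps_range_list, h3, ht]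
  rwa [e] at h2

end Pool.Agent.Lib.RNG
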