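import Pool.Agent.Lib.RNG.Real
import Pool.Agent.Lib.RNG.Poly

/-! The master construction: a countable set of free relations `ρ`, each relation has infinitely many
private coordinates, and every functional `c n` is a further coordinate. -/

open Cardinal Set Filter Topology

namespace Pool.Agent.Lib.RNG

open Pool.Agent.Lib.P92898d

/-- a bit as an integer -/
def b2 (b : Bool) : ℤ := if b then 1 else 0

theorem b2_cases (b : Bool) : b2 b = 0 ∨ b2 b = 1 := by cases b <;> simp [b2]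

theorem b2_inj {b b' : Bool} (h : b2 b = b2 b') : b = b' := by
  cases b <;> cases b' <;> simp_all [b2]

theorem b2_decide {p : ℤ} (h : p = 0 ∨ p = 1) : b2 (decide (p = 1)) = p := by
  rcases h with rfl | rfl <;> simp [b2]

theorem row_eq_lc {ι : Type*} (y : ι →₀ ℤ) (δ : ι → Bool) :
    row y δ = Finsupp.linearCombination ℤ (fun i => b2 (δ i)) y := by
  rw [Finsupp.linearCombination_apply]
  unfold row
  congr 1
  funext i c
  cases δ i <;> simp [b2]

/-- pairing of a functional with an integer vector -/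
def dot {ρ : Type*} (c : ρ →₀ ℤ) (α : ρ → ℤ) : ℤ := c.sum (fun r k => k * α r)

theorem dot_eq_lc {ρ : Type*} (c : ρ →₀ ℤ) (α : ρ → ℤ) :
    dot c α = Finsupp.linearCombination ℤ α c := by
  rw [Finsupp.linearCombination_apply]
  unfold dot
  rfl

theorem dot_sub {ρ : Type*} (c : ρ →₀ ℤ) (α α' : ρ → ℤ) :
    dot c (fun r => α r - α' r) = dot c α - dot c α' := by
  unfold dot
  rw [← Finsupp.sum_sub]
  congr 1
  funext r k
  ring

/-- coordinates -/
abbrev Co (ρ : Type) : Type := ℕ ⊕ (ρ × ℕ)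

/-- the rows -/
noncomputable def rows {ρ : Type} (c : ℕ → ρ →₀ ℤ) : Co ρ → Co ρ →₀ ℤ
  | Sum.inl n => Finsupp.single (Sum.inl n) 1 - (c n).mapDomain (fun r => Sum.inr (r, n))
  | Sum.inr (r, j) => Finsupp.single (Sum.inr (r, j)) 1 - Finsupp.single (Sum.inr (r, j + 1)) 1

theorem row_star {ρ : Type} (c : ℕ → ρ →₀ ℤ) (n : ℕ) (δ : Co ρ → Bool) :
    row (rows c (Sum.inl n)) δ = b2 (δ (Sum.inl n)) - dot (c n) (fun r => b2 (δ (Sum.inr (r, n)))) := by
  rw [row_eq_lc, rows, map_sub, Finsupp.linearCombination_single, Finsupp.linearCombination_mapDomain,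
    dot_eq_lc, one_smul]
  rfl

theorem row_copy {ρ : Type} (c : ℕ → ρ →₀ ℤ) (r : ρ) (j : ℕ) (δ : Co ρ → Bool) :
    row (rows c (Sum.inr (r, j))) δ = b2 (δ (Sum.inr (r, j))) - b2 (δ (Sum.inr (r, j + 1))) := by
  rw [row_eq_lc, rows, map_sub, Finsupp.linearCombination_single, Finsupp.linearCombination_single,
    one_smul, one_smul]

/-- the feasible relations at the base point `(β, γ)` -/
def Feas {ρ : Type} (c : ℕ → ρ →₀ ℤ) (β : ρ → ℕ → Bool) (γ : ℕ → Bool) : Set (ρ → ℤ) :=
  {α | (∀ r j, b2 (β r j) + α r = 0 ∨ b2 (β r j) + α r = 1) ∧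
    ∀ n, b2 (γ n) + dot (c n) α = 0 ∨ b2 (γ n) + dot (c n) α = 1}

theorem class_card {ρ : Type} (c : ℕ → ρ →₀ ℤ) (δ : Co ρ → Bool) :
    #{δ' : Co ρ → Bool | ∀ i, row (rows c i) δ' = row (rows c i) δ}
      = #(Feas c (fun r j => δ (Sum.inr (r, j))) (fun n => δ (Sum.inl n))) := by
  apply Cardinal.mk_congr
  have key : ∀ δ' : Co ρ → Bool, (∀ i, row (rows c i) δ' = row (rows c i) δ) →
      (∀ r j, b2 (δ' (Sum.inr (r, j))) = b2 (δ (Sum.inr (r, j))) +
        (b2 (δ' (Sum.inr (r, 0))) - b2 (δ (Sum.inr (r, 0))))) ∧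
      (∀ n, b2 (δ' (Sum.inl n)) = b2 (δ (Sum.inl n)) +
        dot (c n) (fun r => b2 (δ' (Sum.inr (r, 0))) - b2 (δ (Sum.inr (r, 0))))) := by
    intro δ' h
    have h1 : ∀ r j, b2 (δ' (Sum.inr (r, j))) = b2 (δ (Sum.inr (r, j))) +
        (b2 (δ' (Sum.inr (r, 0))) - b2 (δ (Sum.inr (r, 0)))) := by
      intro r j
      induction j with
      | zero => ring
      | succ j ih =>
        have := h (Sum.inr (r, j))
        rw [row_copy, row_copy] at this
        linarith
    refine ⟨h1, fun n => ?_⟩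
    have h2 := h (Sum.inl n)
    rw [row_star, row_star] at h2
    have h3 : dot (c n) (fun r => b2 (δ' (Sum.inr (r, 0))) - b2 (δ (Sum.inr (r, 0))))
        = dot (c n) (fun r => b2 (δ' (Sum.inr (r, n)))) - dot (c n) (fun r => b2 (δ (Sum.inr (r, n)))) := by
      rw [← dot_sub]
      congr 1
      funext r
      have := h1 r n
      linarith
    rw [h3]
    linarith
  refine ⟨fun δ' => ⟨fun r => b2 (δ'.1 (Sum.inr (r, 0))) - b2 (δ (Sum.inr (r, 0))), ?_⟩,
    fun α => ⟨fun i => match i with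
      | Sum.inl n => decide (b2 (δ (Sum.inl n)) + dot (c n) α.1 = 1)
      | Sum.inr (r, j) => decide (b2 (δ (Sum.inr (r, j))) + α.1 r = 1), ?_⟩, ?_, ?_⟩
  · obtain ⟨k1, k2⟩ := key δ'.1 δ'.2
    refine ⟨fun r j => ?_, fun n => ?_⟩
    · rw [← k1 r j]; exact b2_cases _
    · rw [← k2 n]; exact b2_cases _
  · obtain ⟨a1, a2⟩ := α.2
    have e1 : ∀ r j, b2 (decide (b2 (δ (Sum.inr (r, j))) + α.1 r = 1))
        = b2 (δ (Sum.inr (r, j))) + α.1 r := fun r j => b2_decide (a1 r j)
    have e2 : ∀ n, b2 (decide (b2 (δ (Sum.inl n)) + dot (c n) α.1 = 1))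
        = b2 (δ (Sum.inl n)) + dot (c n) α.1 := fun n => b2_decide (a2 n)
    rintro (n | ⟨r, j⟩)
    · rw [row_star, row_star]
      simp only [e1, e2]
      have : dot (c n) (fun r => b2 (δ (Sum.inr (r, n))) + α.1 r)
          = dot (c n) (fun r => b2 (δ (Sum.inr (r, n)))) + dot (c n) α.1 := by
        have := dot_sub (c n) (fun r => b2 (δ (Sum.inr (r, n))) + α.1 r) α.1
        simp only [add_sub_cancel_right] at this
        linarith
      rw [this]
      ring
    · rw [row_copy, row_copy]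
      simp only [e1]
      ring
  · rintro ⟨δ', h⟩
    obtain ⟨k1, k2⟩ := key δ' h
    rw [Subtype.mk.injEq]
    funext i
    apply b2_inj
    rcases i with n | ⟨r, j⟩
    · show b2 (decide (_ = 1)) = _
      rw [b2_decide (by rw [← k2 n]; exact b2_cases _), k2 n]
    · show b2 (decide (_ = 1)) = _
      rw [b2_decide (by rw [← k1 r j]; exact b2_cases _), k1 r j]
  · rintro ⟨α, h⟩
    rw [Subtype.mk.injEq]
    funext r
    show b2 (decide (_ = 1)) - _ = _
    rw [b2_decide (h.1 r 0)]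
    ring

/-- **Master theorem.** -/
theorem master {ρ : Type} [Countable ρ] (c : ℕ → ρ →₀ ℤ) (b : ℕ → ℤ) (n : ℕ) :
    IsRange (insert 0 {κ | ∃ s : ℤ, ∃ (β : ρ → ℕ → Bool) (γ : ℕ → Bool),
      κ = (reps (Finset.range n) b s : Cardinal.{0}) * #(Feas c β γ)}) := by
  obtain ⟨e⟩ := nonempty_equiv_of_countable (α := ℕ) (β := Co ρ)
  obtain ⟨x, hx, hr⟩ := realize_nat (fun j => rows c (e j))
  have h := isRange_mul hx b n hr
  have hset : {κ : Cardinal.{0} | ∃ s : ℤ, ∃ d ∈ Set.range (fun δ : Co ρ → Bool =>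
      #{δ' : Co ρ → Bool | ∀ j, row (rows c (e j)) δ' = row (rows c (e j)) δ}),
      κ = (reps (Finset.range n) b s : Cardinal.{0}) * d}
      = {κ | ∃ s : ℤ, ∃ (β : ρ → ℕ → Bool) (γ : ℕ → Bool),
      κ = (reps (Finset.range n) b s : Cardinal.{0}) * #(Feas c β γ)} := by
    have hcls : ∀ δ : Co ρ → Bool, #{δ' : Co ρ → Bool | ∀ j, row (rows c (e j)) δ' = row (rows c (e j)) δ}
        = #(Feas c (fun r j => δ (Sum.inr (r, j))) (fun n => δ (Sum.inl n))) := by
      intro δ
      rw [← class_card]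
      congr 1
      have : {δ' : Co ρ → Bool | ∀ j, row (rows c (e j)) δ' = row (rows c (e j)) δ}
        = {δ' : Co ρ → Bool | ∀ i, row (rows c i) δ' = row (rows c i) δ} := by
        ext δ'
        constructor
        · intro h i
          have := h (e.symm i)
          rwa [e.apply_symm_apply] at this
        · intro h j
          exact h (e j)
      rw [this]
    ext κ
    constructor
    · rintro ⟨s, d, ⟨δ, rfl⟩, rfl⟩
      refine ⟨s, fun r j => δ (Sum.inr (r, j)), fun n => δ (Sum.inl n), ?_⟩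
      simp only
      rw [hcls δ]
    · rintro ⟨s, β, γ, rfl⟩
      refine ⟨s, _, ⟨fun i => match i with
        | Sum.inl n => γ n
        | Sum.inr (r, j) => β r j, rfl⟩, ?_⟩
      simp only
      rw [hcls]
  rwa [hset] at h

end Pool.Agent.Lib.RNG
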