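import Pool.Agent.Lib.P92898d.Main

/-! Ranges without infinite cardinals: a fibre of size `m ≥ 4` forces a value other than `0, 1, m`. -/

open Cardinal Set Filter Topology

namespace Pool.Agent.Lib.RNG

variable {ι : Type*}

/-- The subsum of the family `y` selected by `δ`. -/
noncomputable def gs (y : ι → ℝ) (δ : ι → Bool) : ℝ := ∑' i, (if δ i then y i else 0)

/-- The fibre over `t`. -/
def fib (y : ι → ℝ) (t : ℝ) : Set (ι → Bool) := {δ | gs y δ = t}

theorem summable_gs {y : ι → ℝ} (hy : Summable (fun n => |y n|)) (δ : ι → Bool) :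
    Summable (fun n => if δ n then y n else 0) := by
  apply Summable.of_norm_bounded hy
  intro n
  split_ifs <;> simp

theorem abs_gs_le {y : ι → ℝ} (hy : Summable (fun n => |y n|)) (δ : ι → Bool) :
    |gs y δ| ≤ ∑' i, |y i| := by
  unfold gs
  rw [← Real.norm_eq_abs]
  apply tsum_of_norm_bounded hy.hasSum
  intro n
  split_ifs <;> simp

theorem gs_update [DecidableEq ι] {y : ι → ℝ} (hy : Summable (fun n => |y n|)) (δ : ι → Bool) (i : ι)
    (h : δ i = false) : gs y (Function.update δ i true) = gs y δ + y i := by
  have h1 := (summable_gs hy δ).hasSum.update i (y i)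
  have h2 : (fun n => if (Function.update δ i true) n then y n else 0)
      = Function.update (fun n => if δ n then y n else 0) i (y i) := by
    funext n
    by_cases hn : n = i
    · subst hn; simp
    · simp [Function.update_of_ne hn]
  unfold gs
  rw [h2, h1.tsum_eq, h]
  simp
  ring

theorem gs_update' [DecidableEq ι] {y : ι → ℝ} (hy : Summable (fun n => |y n|)) (δ : ι → Bool) (i : ι)
    (h : δ i = true) : gs y (Function.update δ i false) = gs y δ - y i := by
  have h1 := gs_update hy (Function.update δ i false) i (by simp)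
  rw [Function.update_idem, Function.update_eq_self_iff.2 h.symm] at h1
  linarith

/-- the part of the fibre with bit `b` at `i` -/
def part (y : ι → ℝ) (t : ℝ) (i : ι) (b : Bool) : Set (ι → Bool) := {δ | gs y δ = t ∧ δ i = b}

theorem part_card_add (y : ι → ℝ) (t : ℝ) (i : ι) (hf : (fib y t).Finite) :
    (part y t i false).ncard + (part y t i true).ncard = (fib y t).ncard := by
  have h1 : part y t i false ∪ part y t i true = fib y t := by
    ext δ
    simp only [part, fib, mem_union, mem_ofPred_eq]
    rcases hb : δ i with _ | _ <;> simp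
  have h2 : Disjoint (part y t i false) (part y t i true) := by
    rw [Set.disjoint_left]
    rintro δ ⟨-, h⟩ ⟨-, h'⟩
    rw [h] at h'
    cases h'
  have h3 : (part y t i false).Finite := hf.subset (fun δ h => h.1)
  have h4 : (part y t i true).Finite := hf.subset (fun δ h => h.1)
  rw [← h1, Set.ncard_union_eq h2 h3 h4]

theorem part_shift {y : ι → ℝ} (hy : Summable (fun n => |y n|)) (t : ℝ) (i : ι) :
    (part y (t + y i) i true).ncard = (part y t i false).ncard := by
  classical
  symm
  apply Set.ncard_congr (fun δ _ => Function.update δ i true)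
  · rintro δ ⟨h1, h2⟩
    exact ⟨by rw [gs_update hy δ i h2, h1], by simp⟩
  · rintro δ δ' ⟨-, h2⟩ ⟨-, h2'⟩ h
    have : Function.update (Function.update δ i true) i false
        = Function.update (Function.update δ' i true) i false := by rw [h]
    rw [Function.update_idem, Function.update_idem, Function.update_eq_self_iff.2 h2.symm,
      Function.update_eq_self_iff.2 h2'.symm] at this
    exact this
  · rintro δ ⟨h1, h2⟩
    refine ⟨Function.update δ i false, ⟨?_, by simp⟩, ?_⟩
    · rw [gs_update' hy δ i h2, h1]; ring
    · rw [Function.update_idem, Function.update_eq_self_iff.2 h2.symm]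

/-- No coordinate splits a fibre into two parts with at least two elements each. -/
theorem no_two_two {y : ι → ℝ} (hy : Summable (fun n => |y n|)) {m : ℕ}
    (hF : ∀ t, (fib y t).Finite ∧ ((fib y t).ncard ≤ 1 ∨ (fib y t).ncard = m)) {i : ι} (hi : y i ≠ 0)
    (t : ℝ) (h0 : 2 ≤ (part y t i false).ncard) (h1 : 2 ≤ (part y t i true).ncard) : False := by
  have hm : ∀ t, 2 ≤ (fib y t).ncard → (fib y t).ncard = m := by
    intro t ht
    rcases (hF t).2 with h | h
    · omega
    · exact h
  have key : ∀ k : ℕ, 2 ≤ (part y (t + k * y i) i false).ncard ∧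
      2 ≤ (part y (t + k * y i) i true).ncard := by
    intro k
    induction k with
    | zero => simpa using ⟨h0, h1⟩
    | succ k ih =>
      have e : t + ((k + 1 : ℕ) : ℝ) * y i = (t + k * y i) + y i := by push_cast; ring
      rw [e]
      set s := t + k * y i with hs
      have a1 := part_shift hy s i
      have a2 := part_card_add y s i (hF s).1
      have a3 := part_card_add y (s + y i) i (hF (s + y i)).1
      have a4 := hm s (by omega)
      have a5 := hm (s + y i) (by omega)
      constructor <;> omega
  have hbd : ∀ k : ℕ, |t + k * y i| ≤ ∑' j, |y j| := by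
    intro k
    have h2 := (key k).1
    have h3 : (part y (t + k * y i) i false).Nonempty := by
      rw [Set.nonempty_iff_ne_empty]
      intro h
      rw [h] at h2
      simp at h2
    obtain ⟨δ, hδ, -⟩ := h3
    rw [← hδ]
    exact abs_gs_le hy δ
  have hpos : 0 < |y i| := abs_pos.2 hi
  obtain ⟨k, hk⟩ := exists_nat_gt ((∑' j, |y j| + |t|) / |y i|)
  rw [div_lt_iff₀ hpos] at hk
  have h4 := hbd k
  have h5 : |(k : ℝ) * y i| ≤ |t + k * y i| + |t| := by
    calc |(k : ℝ) * y i| = |(t + k * y i) - t| := by ring_nf
      _ ≤ |t + k * y i| + |t| := abs_sub _ _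
  rw [abs_mul, Nat.abs_cast] at h5
  linarith

/-- If all fibres have at most one or exactly `m ≥ 4` elements, then none has `m`. -/
theorem no_m {y : ι → ℝ} (hy : Summable (fun n => |y n|)) (hy0 : ∀ i, y i ≠ 0) {m : ℕ}
    (hm4 : 4 ≤ m)
    (hF : ∀ t, (fib y t).Finite ∧ ((fib y t).ncard ≤ 1 ∨ (fib y t).ncard = m)) (t : ℝ) :
    (fib y t).ncard ≠ m := by
  classical
  intro ht
  have hfin := (hF t).1
  -- the majority bits
  have hmaj : ∀ i, ∃ b : Bool, (part y t i (!b)).ncard ≤ 1 := by
    intro i
    by_contra hcon
    push Not at hcon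
    have h1 := hcon true
    have h2 := hcon false
    exact no_two_two hy hF (hy0 i) t (Nat.succ_le_of_lt (by simpa using h1))
      (Nat.succ_le_of_lt (by simpa using h2))
  choose β hβ using hmaj
  have huniq : ∀ i, ∀ f g : ι → Bool, gs y f = t → gs y g = t → f i ≠ β i → g i ≠ β i → f = g := by
    intro i f g hf hg hfi hgi
    have h1 := hβ i
    rw [Set.ncard_le_one (hfin.subset (fun δ h => h.1))] at h1
    exact h1 f ⟨hf, by cases hb : β i <;> cases hfb : f i <;> simp_all⟩ g
      ⟨hg, by cases hb : β i <;> cases hfb : g i <;> simp_all⟩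
  -- joining two elements
  let J : (ι → Bool) → (ι → Bool) → ι → Bool := fun f g i => if f i = β i then g i else f i
  have hJ : ∀ f g, gs y f = t → gs y g = t → f ≠ g → gs y (J f g) = 2 * t - gs y β := by
    intro f g hf hg hne
    have h1 : gs y (J f g) + gs y β = gs y f + gs y g := by
      unfold gs
      rw [← (summable_gs hy _).tsum_add (summable_gs hy _),
        ← (summable_gs hy _).tsum_add (summable_gs hy _)]
      congr 1
      funext i
      show (if J f g i then y i else 0) + (if β i then y i else 0) = _
      by_cases h : f i = β i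
      · have : J f g i = g i := by simp [J, h]
        rw [this, h, add_comm]
      · have h2 : J f g i = f i := by simp [J, h]
        have h3 : g i = β i := by
          by_contra hc
          exact hne (huniq i f g hf hg h hc)
        rw [h2, h3]
    rw [hf, hg] at h1
    linarith
  -- four different elements
  have h4 : 4 ≤ Nat.card (fib y t) := by
    have : Nat.card (fib y t) = (fib y t).ncard := rfl
    omega
  have := hfin.to_subtype
  have := Fintype.ofFinite (fib y t)
  rw [Nat.card_eq_fintype_card] at h4
  obtain ⟨e⟩ := Function.Embedding.nonempty_of_card_le (α := Fin 4) (β := fib y t) (by simpa using h4)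
  let f : Fin 4 → ι → Bool := fun k => (e k).1
  have hf : ∀ k, gs y (f k) = t := fun k => (e k).2
  have hinj : ∀ k l, f k = f l → k = l := fun k l h => e.injective (Subtype.ext h)
  by_cases hall : ∀ k, ∃ i, f k i ≠ β i
  · choose c hc using hall
    have hcne : ∀ k l, k ≠ l → f k (c l) = β (c l) := by
      intro k l hkl
      by_contra h
      exact hkl (hinj _ _ (huniq (c l) _ _ (hf k) (hf l) h (hc l)))
    have J1 : ∀ k l, J (f k) (f l) (c k) ≠ β (c k) := by
      intro k l
      have : J (f k) (f l) (c k) = f k (c k) := by simp [J, hc k]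
      rw [this]; exact hc k
    have J2 : ∀ k l, k ≠ l → J (f k) (f l) (c l) ≠ β (c l) := by
      intro k l hkl
      have : J (f k) (f l) (c l) = f l (c l) := by simp [J, hcne k l hkl]
      rw [this]; exact hc l
    have J3 : ∀ k l j, k ≠ j → l ≠ j → J (f k) (f l) (c j) = β (c j) := by
      intro k l j hk hl
      have : J (f k) (f l) (c j) = f l (c j) := by simp [J, hcne k j hk]
      rw [this]; exact hcne l j hl
    set s := 2 * t - gs y β with hs
    have hsf := (hF s).1
    have hS : ∀ k l, k ≠ l → gs y (J (f k) (f l)) = s := fun k l h =>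
      hJ _ _ (hf k) (hf l) (fun h' => h (hinj _ _ h'))
    have hdev : 2 ≤ (part y s (c 0) (!(β (c 0)))).ncard := by
      rw [Nat.succ_le_iff, Set.one_lt_ncard_iff (hsf.subset (fun δ h => h.1))]
      refine ⟨J (f 0) (f 1), J (f 0) (f 2), ⟨hS 0 1 (by decide), ?_⟩, ⟨hS 0 2 (by decide), ?_⟩, ?_⟩
      · have := J1 0 1
        cases hb : β (c 0) <;> cases hb2 : J (f 0) (f 1) (c 0) <;> simp_all
      · have := J1 0 2
        cases hb : β (c 0) <;> cases hb2 : J (f 0) (f 2) (c 0) <;> simp_all
      · intro h
        have a := J2 0 1 (by decide)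
        have b := J3 0 2 1 (by decide) (by decide)
        rw [h] at a
        exact a b
    have hmaj2 : 2 ≤ (part y s (c 0) (β (c 0))).ncard := by
      rw [Nat.succ_le_iff, Set.one_lt_ncard_iff (hsf.subset (fun δ h => h.1))]
      refine ⟨J (f 1) (f 2), J (f 1) (f 3), ⟨hS 1 2 (by decide), J3 1 2 0 (by decide) (by decide)⟩,
        ⟨hS 1 3 (by decide), J3 1 3 0 (by decide) (by decide)⟩, ?_⟩
      intro h
      have a := J2 1 2 (by decide)
      have b := J3 1 3 2 (by decide) (by decide)
      rw [h] at a
      exact a b
    cases hb : β (c 0)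
    · rw [hb] at hdev hmaj2
      exact no_two_two hy hF (hy0 (c 0)) s hmaj2 (by simpa using hdev)
    · rw [hb] at hdev hmaj2
      exact no_two_two hy hF (hy0 (c 0)) s (by simpa using hdev) hmaj2
  · push Not at hall
    obtain ⟨k, hk⟩ := hall
    have hkβ : f k = β := funext hk
    -- two other elements
    have hdec : ∀ k : Fin 4, ∃ l j : Fin 4, l ≠ k ∧ j ≠ k ∧ l ≠ j := by decide
    obtain ⟨l, j, hl, hj, hlj⟩ := hdec k
    have hbt : gs y β = t := by rw [← hkβ]; exact hf k
    have hJt : gs y (J (f l) (f j)) = t := by
      rw [hJ _ _ (hf l) (hf j) (fun h => hlj (hinj _ _ h)), hbt]; ring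
    obtain ⟨p, hp⟩ : ∃ p, f l p ≠ β p := by
      by_contra hcon
      push Not at hcon
      exact hl (hinj _ _ ((funext hcon).trans hkβ.symm))
    obtain ⟨q, hq⟩ : ∃ q, f j q ≠ β q := by
      by_contra hcon
      push Not at hcon
      exact hj (hinj _ _ ((funext hcon).trans hkβ.symm))
    have e1 : J (f l) (f j) = f l := by
      apply huniq p _ _ hJt (hf l) _ hp
      have : J (f l) (f j) p = f l p := by simp [J, hp]
      rw [this]; exact hp
    have e2 : J (f l) (f j) = f j := by
      apply huniq q _ _ hJt (hf j) _ hq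
      have h3 : f l q = β q := by
        by_contra hc
        exact hlj (hinj _ _ (huniq q _ _ (hf l) (hf j) hc hq))
      have : J (f l) (f j) q = f j q := by simp [J, h3]
      rw [this]; exact hq
    exact hlj (hinj _ _ (e1.symm.trans e2))

end Pool.Agent.Lib.RNG
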