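import Pool.Agent.Lib.RNG.Fast
import Pool.Agent.Lib.RNG.Types

/-! Every countable family of finitely supported integer rows is the relation system of a series. -/

open Cardinal Set Filter Topology

namespace Pool.Agent.Lib.RNG

open Pool.Agent.Lib.P92898d

variable {ι : Type*}

/-- value of the row `y` at the 0-1 vector `δ` -/
def row (y : ι →₀ ℤ) (δ : ι → Bool) : ℤ := y.sum (fun i c => if δ i then c else 0)

/-- `l¹` norm of a row -/
def nrm (y : ι →₀ ℤ) : ℕ := y.sum (fun _ c => c.natAbs)

theorem row_eq (y : ι →₀ ℤ) (δ : ι → Bool) : row y δ = ∑ i ∈ y.support, if δ i then y i else 0 := rfl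

theorem nrm_eq (y : ι →₀ ℤ) : nrm y = ∑ i ∈ y.support, (y i).natAbs := rfl

theorem row_sub_le (y : ι →₀ ℤ) (δ δ' : ι → Bool) : |row y δ - row y δ'| ≤ nrm y := by
  rw [row_eq, row_eq, nrm_eq, ← Finset.sum_sub_distrib]
  push_cast
  refine le_trans (Finset.abs_sum_le_sum_abs _ _) (Finset.sum_le_sum fun i _ => ?_)
  cases δ i <;> cases δ' i <;> simp

/-- Realisation: `gs x δ = gs x δ'` iff all rows agree. -/
theorem realize (y : ℕ → ι →₀ ℤ) : ∃ x : ι → ℝ, Summable (fun i => |x i|) ∧
    ∀ δ δ' : ι → Bool, gs x δ = gs x δ' ↔ ∀ j, row (y j) δ = row (y j) δ' := by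
  classical
  set M : ℕ → ℕ := fun j => nrm (y j) with hM
  have hfs : ∀ (j : ℕ) (g : ι → ℝ), (∀ i, i ∉ (y j).support → g i = 0) → HasSum g (∑ i ∈ (y j).support, g i) :=
    fun j g hg => hasSum_sum_of_ne_finset_zero hg
  -- joint summability
  have hprod : Summable (fun p : ℕ × ι => |tau M p.1 * (y p.1 p.2 : ℝ)|) := by
    rw [summable_prod_of_nonneg (fun p => abs_nonneg _)]
    refine ⟨fun j => (hfs j _ (fun i hi => ?_)).summable, ?_⟩
    · rw [Finsupp.notMem_support_iff.1 hi]; simp
    · have e : ∀ j, ∑' i, |tau M j * (y j i : ℝ)| = (M j : ℝ) * tau M j := by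
        intro j
        rw [(hfs j (fun i => |tau M j * (y j i : ℝ)|) (fun i hi => by
          rw [Finsupp.notMem_support_iff.1 hi]; simp)).tsum_eq]
        show _ = ((nrm (y j) : ℕ) : ℝ) * tau M j
        rw [nrm_eq]
        push_cast
        rw [Finset.sum_mul]
        apply Finset.sum_congr rfl
        intro i _
        rw [abs_mul, abs_of_pos (tau_pos M j), mul_comm, Nat.cast_natAbs, Int.cast_abs]
      simp only [e]
      refine Summable.of_nonneg_of_le (fun j => ?_) (fun j => ?_) (summable_bound M)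
      · have := tau_pos M j
        positivity
      · have := tau_pos M j
        linarith
  have hprod' : Summable (fun p : ι × ℕ => |tau M p.2 * (y p.2 p.1 : ℝ)|) := by
    have := (Equiv.prodComm ι ℕ).summable_iff.2 hprod
    exact this
  set x : ι → ℝ := fun i => ∑' j, tau M j * (y j i : ℝ) with hx
  have hxs : Summable (fun i => |x i|) := by
    have h1 := hprod'.prod
    refine Summable.of_nonneg_of_le (fun i => abs_nonneg _) (fun i => ?_) h1
    rw [hx]
    simp only
    rw [← Real.norm_eq_abs]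
    refine tsum_of_norm_bounded (g := fun j => |tau M j * (y j i : ℝ)|) ?_ (fun j => le_of_eq (Real.norm_eq_abs _))
    exact (hprod'.prod_factor i).hasSum
  have hgs : ∀ δ : ι → Bool, gs x δ = ∑' j, (row (y j) δ : ℝ) * tau M j := by
    intro δ
    have hP : Summable (fun p : ι × ℕ => if δ p.1 then tau M p.2 * (y p.2 p.1 : ℝ) else 0) := by
      apply Summable.of_norm_bounded hprod'
      intro p
      split_ifs
      · exact le_of_eq (Real.norm_eq_abs _)
      · rw [norm_zero]; exact abs_nonneg _
    have h1 : gs x δ = ∑' i, ∑' j, (if δ i then tau M j * (y j i : ℝ) else 0) := by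
      unfold gs
      congr 1
      funext i
      cases δ i <;> simp [hx]
    rw [h1]
    have h2 : ∑' i, ∑' j, (if δ i then tau M j * (y j i : ℝ) else 0)
        = ∑' j, ∑' i, (if δ i then tau M j * (y j i : ℝ) else 0) := by
      exact (Summable.tsum_comm (f := fun i j => if δ i then tau M j * (y j i : ℝ) else 0) hP).symm
    rw [h2]
    congr 1
    funext j
    rw [(hfs j (fun i => if δ i then tau M j * (y j i : ℝ) else 0) (fun i hi => by
      rw [Finsupp.notMem_support_iff.1 hi]; simp)).tsum_eq, row_eq]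
    push_cast
    rw [Finset.sum_mul]
    apply Finset.sum_congr rfl
    intro i _
    cases δ i <;> simp [mul_comm]
  refine ⟨x, hxs, fun δ δ' => ?_⟩
  rw [hgs, hgs]
  constructor
  · intro h
    have hrow : ∀ δ : ι → Bool, ∀ l, |row (y l) δ| ≤ M l := by
      intro δ l
      have := row_sub_le (y l) δ (fun _ => false)
      have e : row (y l) (fun _ => false) = 0 := by simp [row_eq]
      rw [e, sub_zero] at this
      exact this
    have h3 : ∑' l, ((row (y l) δ - row (y l) δ' : ℤ) : ℝ) * tau M l = 0 := by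
      have := (summable_comb (hrow δ)).tsum_sub (summable_comb (hrow δ'))
      rw [h, sub_self] at this
      rw [← this]
      congr 1
      funext l
      push_cast
      ring
    intro j
    have := tau_indep (fun l => row_sub_le (y l) δ δ') h3 j
    omega
  · intro h
    congr 1
    funext j
    rw [h j]

/-- Transport to `ℕ`: the nonzero values are the sizes of the classes. -/
theorem realize_nat {ι : Type} [Countable ι] [Infinite ι] (y : ℕ → ι →₀ ℤ) :
    ∃ x : ℕ → ℝ, Summable (fun n => |x n|) ∧ Set.range (cardF x) =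
      insert 0 (Set.range (fun δ : ι → Bool => #{δ' : ι → Bool | ∀ j, row (y j) δ' = row (y j) δ})) := by
  obtain ⟨x, hx, h⟩ := realize y
  obtain ⟨e⟩ := nonempty_equiv_of_countable (α := ℕ) (β := ι)
  have hxe : Summable (fun n => |x (e n)|) := by
    have := e.summable_iff.2 hx
    exact this
  have hs : ∀ ε : ℕ → Bool, ssum (fun n => x (e n)) ε = gs x (fun i => ε (e.symm i)) := by
    intro ε
    unfold ssum gs
    rw [← e.tsum_eq]
    simp
  have hc : ∀ δ : ι → Bool, cardF (fun n => x (e n)) (gs x δ)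
      = #{δ' : ι → Bool | ∀ j, row (y j) δ' = row (y j) δ} := by
    intro δ
    unfold cardF
    apply Cardinal.mk_congr
    refine ⟨fun ε => ⟨fun i => ε.1 (e.symm i), ?_⟩, fun δ' => ⟨fun n => δ'.1 (e n), ?_⟩, ?_, ?_⟩
    · rw [Set.mem_ofPred_eq, ← h, ← hs]
      exact ε.2
    · rw [Set.mem_ofPred_eq, hs]
      have h1 := (h δ'.1 δ).2 δ'.2
      rw [← h1]
      congr 1
      funext i
      simp
    · rintro ⟨ε, hε⟩
      rw [Subtype.mk.injEq]
      funext n
      simp
    · rintro ⟨δ', hδ'⟩
      rw [Subtype.mk.injEq]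
      funext n
      simp
  refine ⟨fun n => x (e n), hxe, ?_⟩
  ext κ
  rw [Set.mem_range, Set.mem_insert_iff, Set.mem_range]
  constructor
  · rintro ⟨t, rfl⟩
    by_cases ht : ∃ ε, ssum (fun n => x (e n)) ε = t
    · right
      obtain ⟨ε, rfl⟩ := ht
      exact ⟨fun i => ε (e.symm i), by rw [hs, hc]⟩
    · left
      unfold cardF
      rw [Cardinal.mk_eq_zero_iff]
      exact ⟨fun ⟨ε, hε⟩ => ht ⟨ε, hε⟩⟩
  · rintro (rfl | ⟨δ, rfl⟩)
    · exact cardF_zero_exists hxe
    · exact ⟨gs x δ, hc δ⟩

end Pool.Agent.Lib.RNG
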