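import Pool.Agent.Lib.RNG.Union
import Pool.Agent.Lib.RNG.Three

/-! The ranges `{0, ..., l} ∪ M` with `M ⊆ {l + 1, ..., 2 l - 1}`. -/

open Cardinal Set Filter Topology

namespace Pool.Agent.Lib.RNG

open Pool.Agent.Lib.P92898d

/-- Compression of a set of integer rows into one row, as far as vectors with entries in `{-1,0,1}`
are concerned. -/
theorem compress {τ : Type} [Fintype τ] [DecidableEq τ] (R : Set (τ → ℤ)) :
    ∃ w : τ → ℤ, ∀ δ : τ → ℤ, (∀ i, |δ i| ≤ 1) →
      (∑ i, w i * δ i = 0 ↔ ∀ y ∈ R, ∑ i, y i * δ i = 0) := by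
  classical
  set Δ : Finset (τ → ℤ) := Fintype.piFinset (fun _ => Finset.Icc (-1) 1) with hΔ
  have key : ∀ D : Finset (τ → ℤ), D ⊆ Δ → ∃ w : τ → ℤ,
      (∀ δ : τ → ℤ, (∀ y ∈ R, ∑ i, y i * δ i = 0) → ∑ i, w i * δ i = 0) ∧
      (∀ δ ∈ D, ∑ i, w i * δ i = 0 → ∀ y ∈ R, ∑ i, y i * δ i = 0) := by
    intro D
    induction D using Finset.induction_on with
    | empty =>
      intro _
      exact ⟨fun _ => 0, fun δ _ => by simp, fun δ h => by simp at h⟩
    | insert δ₀ D hδ₀ ih =>
      intro hsub
      obtain ⟨w, h1, h2⟩ := ih (fun d hd => hsub (Finset.mem_insert_of_mem hd))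
      by_cases h0 : ∀ y ∈ R, ∑ i, y i * δ₀ i = 0
      · refine ⟨w, h1, fun δ hδ hw => ?_⟩
        rcases Finset.mem_insert.1 hδ with rfl | hδ
        · exact h0
        · exact h2 δ hδ hw
      · push Not at h0
        obtain ⟨y, hy, hy0⟩ := h0
        set N : ℤ := ∑ i, |y i| + 1 with hN
        have hN0 : 0 < N := by
          have : 0 ≤ ∑ i, |y i| := Finset.sum_nonneg fun i _ => abs_nonneg _
          omega
        have hsum : ∀ δ : τ → ℤ, ∑ i, (y i + N * w i) * δ i
            = ∑ i, y i * δ i + N * ∑ i, w i * δ i := by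
          intro δ
          rw [Finset.mul_sum, ← Finset.sum_add_distrib]
          apply Finset.sum_congr rfl
          intro i _
          ring
        have hzero : ∀ δ ∈ Δ, ∑ i, (y i + N * w i) * δ i = 0 →
            ∑ i, y i * δ i = 0 ∧ ∑ i, w i * δ i = 0 := by
          intro δ hδ h
          rw [hsum] at h
          have hb : |∑ i, y i * δ i| < N := by
            have h3 : |∑ i, y i * δ i| ≤ ∑ i, |y i| := by
              refine le_trans (Finset.abs_sum_le_sum_abs _ _) (Finset.sum_le_sum fun i _ => ?_)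
              rw [abs_mul]
              have h4 : |δ i| ≤ 1 := by
                rw [hΔ, Fintype.mem_piFinset] at hδ
                have := hδ i
                rw [Finset.mem_Icc] at this
                exact abs_le.2 this
              calc |y i| * |δ i| ≤ |y i| * 1 := mul_le_mul_of_nonneg_left h4 (abs_nonneg _)
                _ = |y i| := mul_one _
            omega
          have hw : ∑ i, w i * δ i = 0 := by
            by_contra hne
            have h5 : 1 ≤ |∑ i, w i * δ i| := Int.one_le_abs hne
            have h6 : |∑ i, y i * δ i| = N * |∑ i, w i * δ i| := by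
              have : ∑ i, y i * δ i = -(N * ∑ i, w i * δ i) := by linarith
              rw [this, abs_neg, abs_mul, abs_of_pos hN0]
            nlinarith
          refine ⟨?_, hw⟩
          rw [hw, mul_zero, add_zero] at h
          exact h
        refine ⟨fun i => y i + N * w i, fun δ h => ?_, fun δ hδ h => ?_⟩
        · rw [hsum, h y hy, h1 δ h]
          ring
        · obtain ⟨h3, h4⟩ := hzero δ (hsub hδ) h
          rcases Finset.mem_insert.1 hδ with rfl | hδ
          · exact absurd h3 hy0
          · exact h2 δ hδ h4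
  obtain ⟨w, h1, h2⟩ := key Δ (Finset.Subset.refl _)
  refine ⟨w, fun δ hδ => ⟨fun h => h2 δ ?_ h, fun h => h1 δ h⟩⟩
  rw [hΔ, Fintype.mem_piFinset]
  intro i
  rw [Finset.mem_Icc]
  exact abs_le.1 (hδ i)

section star

variable {m l : ℕ}

/-- the places -/
abbrev Pl (m l : ℕ) : Type := {T : Finset (Fin m) // T.card = l - 1 ∨ T.card = l}

/-- indicator -/
def ind (T : Pl m l) (x : Fin m) : ℤ := if x ∈ T.1 then 1 else 0

theorem ind_cases (T : Pl m l) (x : Fin m) : ind T x = 0 ∨ ind T x = 1 := by
  unfold ind; split_ifs <;> simp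

/-- a zero-sum integer vector with small sums over the places is a difference of unit vectors -/
theorem small_vec (hl : 2 ≤ l) (hm : l + 1 ≤ m) (μ : Fin m → ℤ) (h0 : ∑ x, μ x = 0)
    (h : ∀ T : Finset (Fin m), (T.card = l - 1 ∨ T.card = l) → |∑ x ∈ T, μ x| ≤ 1) :
    ∃ u v : Fin m, μ = fun x => (if x = u then 1 else 0) - (if x = v then 1 else 0) := by
  classical
  have hne : (Finset.powersetCard l (Finset.univ : Finset (Fin m))).Nonempty := by
    rw [Finset.powersetCard_nonempty, Finset.card_univ, Fintype.card_fin]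
    omega
  obtain ⟨T, hT, hmax⟩ := Finset.exists_max_image _ (fun T => ∑ x ∈ T, μ x) hne
  rw [Finset.mem_powersetCard] at hT
  have hTc : T.card = l := hT.2
  have hswap : ∀ z ∈ T, ∀ w ∉ T, μ w ≤ μ z := by
    intro z hz w hw
    have hmem : insert w (T.erase z) ∈ Finset.powersetCard l (Finset.univ : Finset (Fin m)) := by
      rw [Finset.mem_powersetCard]
      refine ⟨Finset.subset_univ _, ?_⟩
      rw [Finset.card_insert_of_notMem (fun h => hw (Finset.mem_of_mem_erase h)),
        Finset.card_erase_of_mem hz, hTc]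
      omega
    have h1 := hmax _ hmem
    rw [Finset.sum_insert (fun h => hw (Finset.mem_of_mem_erase h))] at h1
    have h2 := Finset.add_sum_erase T μ hz
    linarith
  have hcompl : ∑ x ∈ T, μ x + ∑ x ∈ Tᶜ, μ x = 0 := by
    rw [Finset.sum_add_sum_compl, h0]
  have hTle := abs_le.1 (h T (Or.inr hTc))
  have hcomplcard : 1 ≤ Tᶜ.card := by
    rw [Finset.card_compl, Fintype.card_fin, hTc]; omega
  have hnn : ∀ z ∈ T, 0 ≤ μ z := by
    intro z hz
    by_contra hneg
    push Not at hneg
    have h1 : ∑ x ∈ Tᶜ, μ x ≤ -1 := by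
      have h2 : ∑ x ∈ Tᶜ, μ x ≤ ∑ x ∈ Tᶜ, (-1 : ℤ) := by
        apply Finset.sum_le_sum
        intro x hx
        have := hswap z hz x (Finset.mem_compl.1 hx)
        omega
      rw [Finset.sum_const, nsmul_eq_mul] at h2
      have h3 : (1 : ℤ) ≤ (Tᶜ.card : ℤ) := by exact_mod_cast hcomplcard
      linarith
    have h4 := Finset.add_sum_erase T μ hz
    have h5 := abs_le.1 (h (T.erase z) (Or.inl (by rw [Finset.card_erase_of_mem hz, hTc])))
    omega
  have hout : ∀ w ∉ T, μ w ≤ 0 := by
    intro w hw
    by_contra hpos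
    push Not at hpos
    have h1 : (l : ℤ) ≤ ∑ x ∈ T, μ x := by
      have h2 : ∑ x ∈ T, (1 : ℤ) ≤ ∑ x ∈ T, μ x := by
        apply Finset.sum_le_sum
        intro x hx
        have := hswap x hx w hw
        omega
      rw [Finset.sum_const, nsmul_eq_mul, mul_one, hTc] at h2
      exact h2
    omega
  by_cases hz : ∀ x, μ x = 0
  · have hm0 : 0 < m := by omega
    refine ⟨⟨0, hm0⟩, ⟨0, hm0⟩, ?_⟩
    funext x
    rw [hz x, sub_self]
  · -- a positive entry
    have hex : ∃ u ∈ T, 1 ≤ μ u := by
      by_contra hcon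
      push Not at hcon
      have hT0 : ∀ x ∈ T, μ x = 0 := fun x hx => by
        have := hnn x hx; have := hcon x hx; omega
      have h1 : ∑ x ∈ T, μ x = 0 := Finset.sum_eq_zero hT0
      have h2 : ∑ x ∈ Tᶜ, μ x = 0 := by omega
      have h3 : ∀ x ∈ Tᶜ, μ x = 0 := by
        have := (Finset.sum_eq_zero_iff_of_nonpos (fun x hx => hout x (Finset.mem_compl.1 hx))).1 h2
        exact this
      apply hz
      intro x
      by_cases hx : x ∈ T
      · exact hT0 x hx
      · exact h3 x (Finset.mem_compl.2 hx)
    obtain ⟨u, hu, hu1⟩ := hex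
    have hE := Finset.add_sum_erase T μ hu
    have hEn : 0 ≤ ∑ x ∈ T.erase u, μ x :=
      Finset.sum_nonneg fun x hx => hnn x (Finset.mem_of_mem_erase hx)
    have hu2 : μ u = 1 := by omega
    have hE0 : ∑ x ∈ T.erase u, μ x = 0 := by omega
    have hE1 : ∀ x ∈ T.erase u, μ x = 0 :=
      (Finset.sum_eq_zero_iff_of_nonneg (fun x hx => hnn x (Finset.mem_of_mem_erase hx))).1 hE0
    have hC : ∑ x ∈ Tᶜ, μ x = -1 := by omega
    have hexv : ∃ v ∈ Tᶜ, μ v ≤ -1 := by
      by_contra hcon
      push Not at hcon
      have : ∑ x ∈ Tᶜ, μ x = 0 := Finset.sum_eq_zero fun x hx => by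
        have h1 := hcon x hx
        have h2 := hout x (Finset.mem_compl.1 hx)
        omega
      omega
    obtain ⟨v, hv, hv1⟩ := hexv
    have hF := Finset.add_sum_erase Tᶜ μ hv
    have hFn : ∑ x ∈ Tᶜ.erase v, μ x ≤ 0 :=
      Finset.sum_nonpos fun x hx => hout x (Finset.mem_compl.1 (Finset.mem_of_mem_erase hx))
    have hv2 : μ v = -1 := by omega
    have hF0 : ∑ x ∈ Tᶜ.erase v, μ x = 0 := by omega
    have hF1 : ∀ x ∈ Tᶜ.erase v, μ x = 0 :=
      (Finset.sum_eq_zero_iff_of_nonpos
        (fun x hx => hout x (Finset.mem_compl.1 (Finset.mem_of_mem_erase hx)))).1 hF0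
    have huv : u ≠ v := by
      rintro rfl
      exact (Finset.mem_compl.1 hv) hu
    refine ⟨u, v, funext fun x => ?_⟩
    by_cases hxu : x = u
    · subst hxu
      rw [hu2, if_pos rfl, if_neg huv, sub_zero]
    · by_cases hxv : x = v
      · subst hxv
        rw [hv2, if_pos rfl, if_neg hxu, zero_sub]
      · rw [if_neg hxu, if_neg hxv, sub_zero]
        by_cases hx : x ∈ T
        · exact hE1 x (Finset.mem_erase.2 ⟨hxu, hx⟩)
        · exact hF1 x (Finset.mem_erase.2 ⟨hxv, Finset.mem_compl.2 hx⟩)

/-- sum of a row over the differences of indicator vectors of a set and the set minus a point -/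
noncomputable def step (T : Pl m l) (T' : Pl m l) : Pl m l → ℤ :=
  fun S => (if S = T then 1 else 0) - (if S = T' then 1 else 0)

theorem sum_step (T T' : Pl m l) (δ : Pl m l → ℤ) : ∑ S, step T T' S * δ S = δ T - δ T' := by
  classical
  unfold step
  simp only [sub_mul, ite_mul, one_mul, zero_mul]
  rw [Finset.sum_sub_distrib, Finset.sum_ite_eq' Finset.univ T, Finset.sum_ite_eq' Finset.univ T']
  simp

theorem ind_erase (T T' : Pl m l) {x : Fin m} (hx : x ∈ T.1) (hT' : T'.1 = T.1.erase x) (z : Fin m) :
    ind T z - ind T' z = if z = x then 1 else 0 := by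
  unfold ind
  rw [hT']
  by_cases hz : z = x
  · subst hz
    simp [hx]
  · simp [hz]

/-- The row `w` whose relations with entries in `{-1,0,1}` are the differences of the points. -/
theorem exists_row (hl : 2 ≤ l) (hm : l + 1 ≤ m) : ∃ w : Pl m l → ℤ, ∀ δ : Pl m l → ℤ,
    (∀ i, |δ i| ≤ 1) →
      (∑ i, w i * δ i = 0 ↔ ∃ u v : Fin m, δ = fun T => ind T u - ind T v) := by
  classical
  set R : Set (Pl m l → ℤ) := {y | ∀ u v : Fin m, ∑ T, y T * (ind T u - ind T v) = 0} with hR
  obtain ⟨w, hw⟩ := compress R
  refine ⟨w, fun δ hδ => ?_⟩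
  rw [hw δ hδ]
  constructor
  · intro h
    -- the set containing `x`
    have hex : ∀ x : Fin m, ∃ T T' : Pl m l, x ∈ T.1 ∧ T'.1 = T.1.erase x ∧ T.1.card = l := by
      intro x
      have h1 : ({x} : Finset (Fin m)) ⊆ Finset.univ := Finset.subset_univ _
      obtain ⟨S, hS1, -, hS2⟩ := Finset.exists_subsuperset_card_eq (n := l) h1
        (by rw [Finset.card_singleton]; omega) (by rw [Finset.card_univ, Fintype.card_fin]; omega)
      have hx : x ∈ S := hS1 (Finset.mem_singleton_self x)
      exact ⟨⟨S, Or.inr hS2⟩, ⟨S.erase x, Or.inl (by rw [Finset.card_erase_of_mem hx, hS2])⟩, hx, rfl, hS2⟩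
    choose A B hA hB hAc using hex
    set μ : Fin m → ℤ := fun x => δ (A x) - δ (B x) with hμ
    have hstep : ∀ (T T' : Pl m l) (x : Fin m), x ∈ T.1 → T'.1 = T.1.erase x →
        δ T - δ T' = μ x := by
      intro T T' x hx hT'
      have hy : (fun S => step T T' S - step (A x) (B x) S) ∈ R := by
        intro u v
        simp only [sub_mul, Finset.sum_sub_distrib]
        rw [sum_step, sum_step]
        have h1 := ind_erase T T' hx hT'
        have h2 := ind_erase (A x) (B x) (hA x) (hB x)
        have e1 := h1 u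
        have e2 := h1 v
        have e3 := h2 u
        have e4 := h2 v
        omega
      have h3 := h _ hy
      simp only [sub_mul, Finset.sum_sub_distrib] at h3
      rw [sum_step, sum_step] at h3
      show _ = δ (A x) - δ (B x)
      omega
    have hzero : ∑ x, μ x = 0 := by
      have hy : (fun S => ∑ x, step (A x) (B x) S) ∈ R := by
        intro u v
        simp only [Finset.sum_mul]
        rw [Finset.sum_comm]
        simp only [sum_step]
        have h1 : ∀ x, (ind (A x) u - ind (A x) v) - (ind (B x) u - ind (B x) v)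
            = (if u = x then 1 else 0) - (if v = x then 1 else 0) := by
          intro x
          have h2 := ind_erase (A x) (B x) (hA x) (hB x)
          have e3 := h2 u
          have e4 := h2 v
          rw [← e3, ← e4]
          ring
        simp only [h1]
        rw [Finset.sum_sub_distrib, Finset.sum_ite_eq, Finset.sum_ite_eq]
        simp
      have h3 := h _ hy
      simp only [Finset.sum_mul] at h3
      rw [Finset.sum_comm] at h3
      simp only [sum_step] at h3
      exact h3
    have hsmall : ∀ T : Pl m l, T.1.card = l - 1 → δ T = ∑ x ∈ T.1, μ x := by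
      intro T _
      have hy : (fun S => (if S = T then 1 else 0) - ∑ x ∈ T.1, step (A x) (B x) S) ∈ R := by
        intro u v
        simp only [sub_mul, Finset.sum_sub_distrib, Finset.sum_mul, ite_mul, one_mul, zero_mul]
        rw [Finset.sum_ite_eq' Finset.univ T, Finset.sum_comm]
        simp only [Finset.mem_univ, if_true, sum_step]
        have h1 : ∀ x, (ind (A x) u - ind (A x) v) - (ind (B x) u - ind (B x) v)
            = (if u = x then 1 else 0) - (if v = x then 1 else 0) := by
          intro x
          have h2 := ind_erase (A x) (B x) (hA x) (hB x)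
          have e3 := h2 u
          have e4 := h2 v
          rw [← e3, ← e4]
          ring
        simp only [h1]
        rw [Finset.sum_sub_distrib, Finset.sum_ite_eq, Finset.sum_ite_eq]
        unfold ind
        ring
      have h3 := h _ hy
      simp only [sub_mul, Finset.sum_sub_distrib, Finset.sum_mul, ite_mul, one_mul, zero_mul] at h3
      rw [Finset.sum_ite_eq' Finset.univ T, Finset.sum_comm] at h3
      simp only [Finset.mem_univ, if_true, sum_step] at h3
      show δ T = ∑ x ∈ T.1, (δ (A x) - δ (B x))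
      omega
    have hall : ∀ T : Pl m l, δ T = ∑ x ∈ T.1, μ x := by
      intro T
      rcases T.2 with hc | hc
      · exact hsmall T hc
      · have hne : T.1.Nonempty := by
          rw [← Finset.card_pos, hc]; omega
        obtain ⟨x, hx⟩ := hne
        have h1 : (T.1.erase x).card = l - 1 := by rw [Finset.card_erase_of_mem hx, hc]
        have h2 := hstep T ⟨T.1.erase x, Or.inl h1⟩ x hx rfl
        have h3 := hsmall ⟨T.1.erase x, Or.inl h1⟩ h1
        have h4 := Finset.add_sum_erase T.1 μ hx
        simp only at h3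
        rw [h3] at h2
        linarith
    obtain ⟨u, v, huv⟩ := small_vec hl hm μ hzero (fun T hT => by
      rw [← hall ⟨T, hT⟩]
      exact hδ _)
    refine ⟨u, v, funext fun T => ?_⟩
    rw [hall T, huv, Finset.sum_sub_distrib, Finset.sum_ite_eq', Finset.sum_ite_eq']
    rfl
  · rintro ⟨u, v, rfl⟩ y hy
    exact hy u v

end star

end Pool.Agent.Lib.RNG
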