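import Pool.Agent.Lib.RNG.Star

/-! The ranges `{0, ..., l} ∪ M` with `M ⊆ {l + 1, ..., 2 l - 1}`: counting. -/

open Cardinal Set Filter Topology

namespace Pool.Agent.Lib.RNG

open Pool.Agent.Lib.P92898d

section star

variable {m l : ℕ}

/-- characteristic vector -/
def chi (J : Finset (Pl m l)) (T : Pl m l) : ℤ := if T ∈ J then 1 else 0

theorem chi_cases (J : Finset (Pl m l)) (T : Pl m l) : chi J T = 0 ∨ chi J T = 1 := by
  unfold chi; split_ifs <;> simp

theorem chi_inj {J J' : Finset (Pl m l)} (h : ∀ T, chi J T = chi J' T) : J = J' := by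
  ext T
  have := h T
  unfold chi at this
  by_cases h1 : T ∈ J <;> by_cases h2 : T ∈ J' <;> simp_all

theorem sum_chi (w : Pl m l → ℤ) (J : Finset (Pl m l)) : ∑ T, w T * chi J T = ∑ T ∈ J, w T := by
  classical
  unfold chi
  simp only [mul_ite, mul_one, mul_zero]
  rw [Finset.sum_ite_mem, Finset.univ_inter]

theorem exists_sep (hl : 2 ≤ l) (hm : l + 1 ≤ m) (x : Fin m) : ∃ T T' : Pl m l,
    ∀ z, ind T z - ind T' z = if z = x then 1 else 0 := by
  classical
  have h1 : ({x} : Finset (Fin m)) ⊆ Finset.univ := Finset.subset_univ _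
  obtain ⟨S, hS1, -, hS2⟩ := Finset.exists_subsuperset_card_eq (n := l) h1
    (by rw [Finset.card_singleton]; omega) (by rw [Finset.card_univ, Fintype.card_fin]; omega)
  have hx : x ∈ S := hS1 (Finset.mem_singleton_self x)
  exact ⟨⟨S, Or.inr hS2⟩, ⟨S.erase x, Or.inl (by rw [Finset.card_erase_of_mem hx, hS2])⟩,
    ind_erase _ _ hx rfl⟩

theorem ind_inj (hl : 2 ≤ l) (hm : l + 1 ≤ m) {x y : Fin m}
    (h : ∀ T : Pl m l, ind T x = ind T y) : x = y := by
  obtain ⟨T, T', h1⟩ := exists_sep hl hm x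
  have h2 := h1 x
  have h3 := h1 y
  rw [if_pos rfl] at h2
  by_contra hne
  rw [if_neg (fun h => hne h.symm)] at h3
  have h4 := h T
  have h5 := h T'
  omega

theorem star_share (hl : 2 ≤ l) (hm : l + 1 ≤ m) {u v u' v' a b : Fin m} (huv : u ≠ v)
    (huv' : u' ≠ v')
    (h : ∀ T : Pl m l, (ind T u - ind T v) - (ind T u' - ind T v') = ind T a - ind T b) :
    u = u' ∨ v = v' := by
  classical
  have key : ∀ x : Fin m, ((if u = x then (1 : ℤ) else 0) - (if v = x then 1 else 0))
      - ((if u' = x then 1 else 0) - (if v' = x then 1 else 0))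
      = (if a = x then 1 else 0) - (if b = x then 1 else 0) := by
    intro x
    obtain ⟨T, T', h1⟩ := exists_sep hl hm x
    have e1 := h1 u
    have e2 := h1 v
    have e3 := h1 u'
    have e4 := h1 v'
    have e5 := h1 a
    have e6 := h1 b
    have h2 := h T
    have h3 := h T'
    rw [← e1, ← e2, ← e3, ← e4, ← e5, ← e6]
    linarith
  by_contra hcon
  push Not at hcon
  obtain ⟨h1, h2⟩ := hcon
  have k1 := key u
  have k2 := key v'
  rw [if_pos rfl, if_neg (fun h => huv h.symm), if_neg (fun h => h1 h.symm)] at k1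
  rw [if_neg h2, if_neg huv', if_pos rfl] at k2
  by_cases h3 : v' = u
  · rw [if_pos h3] at k1
    split_ifs at k1 <;> omega
  · rw [if_neg h3] at k1
    rw [if_neg (fun h => h3 h.symm)] at k2
    have ha : a = u := by
      by_contra hne
      rw [if_neg hne] at k1
      split_ifs at k1 <;> omega
    have ha' : a = v' := by
      by_contra hne
      rw [if_neg hne] at k2
      split_ifs at k2 <;> omega
    exact h3 (ha'.symm.trans ha)

/-- the class -/
def cls (w : Pl m l → ℤ) (I : Finset (Pl m l)) (t : ℤ) : Finset (Finset (Pl m l)) :=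
  I.powerset.filter (fun J => ∑ T ∈ J, w T = t)

theorem mem_cls {w : Pl m l → ℤ} {I : Finset (Pl m l)} {t : ℤ} {J : Finset (Pl m l)} :
    J ∈ cls w I t ↔ J ⊆ I ∧ ∑ T ∈ J, w T = t := by
  simp [cls]

/-- the defining property of the row -/
def Prop_w (w : Pl m l → ℤ) : Prop := ∀ δ : Pl m l → ℤ, (∀ i, |δ i| ≤ 1) →
  (∑ i, w i * δ i = 0 ↔ ∃ u v : Fin m, δ = fun T => ind T u - ind T v)

theorem diff_of_mem {w : Pl m l → ℤ} (hw : Prop_w w) {I : Finset (Pl m l)} {t : ℤ}
    {J J' : Finset (Pl m l)} (h : J ∈ cls w I t) (h' : J' ∈ cls w I t) :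
    ∃ u v : Fin m, ∀ T, chi J T - chi J' T = ind T u - ind T v := by
  have h1 : ∑ T, w T * (chi J T - chi J' T) = 0 := by
    simp only [mul_sub]
    rw [Finset.sum_sub_distrib, sum_chi, sum_chi, (mem_cls.1 h).2, (mem_cls.1 h').2, sub_self]
  obtain ⟨u, v, huv⟩ := (hw (fun T => chi J T - chi J' T) (fun T => by
    have h2 := chi_cases J T
    have h3 := chi_cases J' T
    rw [abs_le]
    omega)).1 h1
  exact ⟨u, v, fun T => congrFun huv T⟩

/-- Final count for a star. -/
theorem count_star (hl : 2 ≤ l) (hm : l + 1 ≤ m) (hm2 : m ≤ 2 * l - 1) {w : Pl m l → ℤ}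
    (hw : Prop_w w) {I : Finset (Pl m l)} {t : ℤ} (hbig : l < (cls w I t).card)
    {J₀ : Finset (Pl m l)} (hJ₀ : J₀ ∈ cls w I t) (σ : ℤ) (hσ : σ = 1 ∨ σ = -1)
    (φ : Finset (Pl m l) → Fin m)
    (hφ : ∀ J ∈ cls w I t, ∀ T, chi J T - chi J₀ T = σ * (ind T (φ J) - ind T (φ J₀))) :
    (cls w I t).card = m := by
  classical
  have hinj : Set.InjOn φ (cls w I t : Set (Finset (Pl m l))) := by
    intro J hJ J' hJ' he
    apply chi_inj
    intro T
    have h1 := hφ J hJ T
    have h2 := hφ J' hJ' T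
    rw [he] at h1
    linarith
  have hXc : ((cls w I t).image φ).card = (cls w I t).card := Finset.card_image_of_injOn hinj
  have hle : (cls w I t).card ≤ m := by
    rw [← hXc]
    have := Finset.card_le_univ ((cls w I t).image φ)
    rwa [Fintype.card_fin] at this
  -- every place is active
  have hact : ∀ T : Pl m l, ∃ J ∈ cls w I t, ∃ J' ∈ cls w I t, φ J ∈ T.1 ∧ φ J' ∉ T.1 := by
    intro T
    have hTc : T.1.card ≤ l := by rcases T.2 with h | h <;> omega
    have hTc' : T.1ᶜ.card ≤ l := by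
      rw [Finset.card_compl, Fintype.card_fin]
      rcases T.2 with h | h <;> omega
    have h1 : ¬ ((cls w I t).image φ ⊆ T.1) := fun h => by
      have := Finset.card_le_card h
      omega
    have h2 : ¬ ((cls w I t).image φ ⊆ T.1ᶜ) := fun h => by
      have := Finset.card_le_card h
      omega
    rw [Finset.not_subset] at h1 h2
    obtain ⟨x, hx, hxT⟩ := h1
    obtain ⟨y, hy, hyT⟩ := h2
    obtain ⟨J', hJ', rfl⟩ := Finset.mem_image.1 hx
    obtain ⟨J, hJ, rfl⟩ := Finset.mem_image.1 hy
    refine ⟨J, hJ, J', hJ', ?_, hxT⟩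
    by_contra hcon
    exact hyT (Finset.mem_compl.2 hcon)
  have hall : ∀ T : Pl m l, T ∈ I ∧ (σ = 1 → chi J₀ T = ind T (φ J₀)) ∧
      (σ = -1 → chi J₀ T = 1 - ind T (φ J₀)) := by
    intro T
    obtain ⟨J, hJ, J', hJ', h1, h2⟩ := hact T
    have e1 := hφ J hJ T
    have e2 := hφ J' hJ' T
    have i1 : ind T (φ J) = 1 := by simp [ind, h1]
    have i2 : ind T (φ J') = 0 := by simp [ind, h2]
    rw [i1] at e1
    rw [i2] at e2
    have c1 := chi_cases J T
    have c2 := chi_cases J' T
    have c3 := chi_cases J₀ T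
    refine ⟨?_, ?_, ?_⟩
    · by_contra hcon
      have h3 : chi J T = 0 := by
        unfold chi
        rw [if_neg (fun h => hcon ((mem_cls.1 hJ).1 h))]
      have h4 : chi J' T = 0 := by
        unfold chi
        rw [if_neg (fun h => hcon ((mem_cls.1 hJ').1 h))]
      rcases hσ with rfl | rfl <;> omega
    · rintro rfl
      have c4 := ind_cases T (φ J₀)
      omega
    · rintro rfl
      have c4 := ind_cases T (φ J₀)
      omega
  -- the star is complete
  have hstar : ∀ x : Fin m, ∃ J ∈ cls w I t, ∀ T, chi J T - chi J₀ T = σ * (ind T x - ind T (φ J₀)) := by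
    intro x
    set J : Finset (Pl m l) := Finset.univ.filter (fun T => chi J₀ T + σ * (ind T x - ind T (φ J₀)) = 1)
      with hJ
    have hval : ∀ T, chi J T - chi J₀ T = σ * (ind T x - ind T (φ J₀)) := by
      intro T
      obtain ⟨-, h1, h2⟩ := hall T
      have c1 := ind_cases T x
      have c2 := ind_cases T (φ J₀)
      by_cases hT : chi J₀ T + σ * (ind T x - ind T (φ J₀)) = 1
      · have : chi J T = 1 := by
          unfold chi
          rw [if_pos (by rw [hJ, Finset.mem_filter]; exact ⟨Finset.mem_univ _, hT⟩)]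
        linarith
      · have : chi J T = 0 := by
          unfold chi
          rw [if_neg (by rw [hJ, Finset.mem_filter]; exact fun h => hT h.2)]
        rcases hσ with rfl | rfl
        · have := h1 rfl
          omega
        · have := h2 rfl
          omega
    refine ⟨J, ?_, hval⟩
    rw [mem_cls]
    refine ⟨fun T _ => (hall T).1, ?_⟩
    have h3 : ∑ T, w T * (chi J T - chi J₀ T) = 0 := by
      refine (hw (fun T => chi J T - chi J₀ T) (fun T => ?_)).2 ?_
      · have h2 := chi_cases J T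
        have h3 := chi_cases J₀ T
        rw [abs_le]
        omega
      · rcases hσ with rfl | rfl
        · exact ⟨x, φ J₀, funext fun T => by rw [hval T, one_mul]⟩
        · exact ⟨φ J₀, x, funext fun T => by rw [hval T]; ring⟩
    simp only [mul_sub] at h3
    rw [Finset.sum_sub_distrib, sum_chi, sum_chi, (mem_cls.1 hJ₀).2] at h3
    linarith
  choose ψ hψ hψ' using hstar
  have hψinj : Function.Injective ψ := by
    intro x y hxy
    apply ind_inj hl hm
    intro T
    have h1 := hψ' x T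
    have h2 := hψ' y T
    rw [hxy] at h1
    rcases hσ with rfl | rfl <;> linarith
  have hge : m ≤ (cls w I t).card := by
    have h1 : (Finset.univ.image ψ).card = m := by
      rw [Finset.card_image_of_injective _ hψinj, Finset.card_univ, Fintype.card_fin]
    have h2 : (Finset.univ.image ψ).card ≤ (cls w I t).card := by
      apply Finset.card_le_card
      intro J hJ
      obtain ⟨x, -, rfl⟩ := Finset.mem_image.1 hJ
      exact hψ x
    omega
  omega

theorem count_class (hl : 2 ≤ l) (hm : l + 1 ≤ m) (hm2 : m ≤ 2 * l - 1) {w : Pl m l → ℤ}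
    (hw : Prop_w w) (I : Finset (Pl m l)) (t : ℤ) :
    (cls w I t).card ≤ l ∨ (cls w I t).card = m := by
  classical
  by_cases hbig : (cls w I t).card ≤ l
  · left; exact hbig
  right
  push Not at hbig
  have hne : (cls w I t).Nonempty := by
    rw [← Finset.card_pos]; omega
  obtain ⟨J₀, hJ₀⟩ := hne
  have hch : ∀ J : Finset (Pl m l), ∃ u v : Fin m, J ∈ cls w I t →
      ∀ T, chi J T - chi J₀ T = ind T u - ind T v := by
    intro J
    by_cases hJ : J ∈ cls w I t
    · obtain ⟨u, v, huv⟩ := diff_of_mem hw hJ hJ₀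
      exact ⟨u, v, fun _ => huv⟩
    · have : 0 < m := by omega
      exact ⟨⟨0, this⟩, ⟨0, this⟩, fun h => absurd h hJ⟩
  choose u v huv using hch
  have hne' : ∀ J ∈ (cls w I t).erase J₀, u J ≠ v J := by
    intro J hJ he
    rw [Finset.mem_erase] at hJ
    apply hJ.1
    apply chi_inj
    intro T
    have := huv J hJ.2 T
    rw [he] at this
    linarith
  have hshare : ∀ J ∈ (cls w I t).erase J₀, ∀ J' ∈ (cls w I t).erase J₀, u J = u J' ∨ v J = v J' := by
    intro J hJ J' hJ'
    have h1 := Finset.mem_of_mem_erase hJ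
    have h2 := Finset.mem_of_mem_erase hJ'
    obtain ⟨a, b, hab⟩ := diff_of_mem hw h1 h2
    refine star_share hl hm (hne' J hJ) (hne' J' hJ') (a := a) (b := b) (fun T => ?_)
    rw [← hab T, ← huv J h1 T, ← huv J' h2 T]
    ring
  have hcard : 1 < ((cls w I t).erase J₀).card := by
    rw [Finset.card_erase_of_mem hJ₀]; omega
  obtain ⟨J₁, hJ₁, J₂, hJ₂, h12⟩ := Finset.one_lt_card.1 hcard
  have hnb : ¬ (u J₁ = u J₂ ∧ v J₁ = v J₂) := by
    rintro ⟨h1, h2⟩
    apply h12
    apply chi_inj
    intro T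
    have e1 := huv J₁ (Finset.mem_of_mem_erase hJ₁) T
    have e2 := huv J₂ (Finset.mem_of_mem_erase hJ₂) T
    rw [h1, h2] at e1
    linarith
  rcases hshare J₁ hJ₁ J₂ hJ₂ with h | h
  · have hv : v J₁ ≠ v J₂ := fun h' => hnb ⟨h, h'⟩
    have hu : ∀ J ∈ (cls w I t).erase J₀, u J = u J₁ := by
      intro J hJ
      rcases hshare J hJ J₁ hJ₁ with h1 | h1
      · exact h1
      · rcases hshare J hJ J₂ hJ₂ with h2 | h2
        · exact h2.trans h.symm
        · exact absurd (h1.symm.trans h2) hv
    refine count_star hl hm hm2 hw hbig hJ₀ (-1) (Or.inr rfl)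
      (fun J => if J = J₀ then u J₁ else v J) (fun J hJ T => ?_)
    simp only [if_true]
    by_cases hJ0 : J = J₀
    · rw [if_pos hJ0, hJ0]; ring
    · rw [if_neg hJ0, huv J hJ T, hu J (Finset.mem_erase.2 ⟨hJ0, hJ⟩)]
      ring
  · have hu : u J₁ ≠ u J₂ := fun h' => hnb ⟨h', h⟩
    have hv : ∀ J ∈ (cls w I t).erase J₀, v J = v J₁ := by
      intro J hJ
      rcases hshare J hJ J₁ hJ₁ with h1 | h1
      · rcases hshare J hJ J₂ hJ₂ with h2 | h2
        · exact absurd (h1.symm.trans h2) hu
        · exact h2.trans h.symm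
      · exact h1
    refine count_star hl hm hm2 hw hbig hJ₀ 1 (Or.inl rfl)
      (fun J => if J = J₀ then v J₁ else u J) (fun J hJ T => ?_)
    simp only [if_true]
    by_cases hJ0 : J = J₀
    · rw [if_pos hJ0, hJ0]; ring
    · rw [if_neg hJ0, huv J hJ T, hv J (Finset.mem_erase.2 ⟨hJ0, hJ⟩)]
      ring

theorem exists_full (hl : 2 ≤ l) (hm : l + 1 ≤ m) (hm2 : m ≤ 2 * l - 1) {w : Pl m l → ℤ}
    (hw : Prop_w w) : ∃ t : ℤ, (cls w Finset.univ t).card = m := by
  classical
  have hm0 : 0 < m := by omega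
  set x₀ : Fin m := ⟨0, hm0⟩ with hx₀
  set ψ : Fin m → Finset (Pl m l) := fun x => Finset.univ.filter (fun T => x ∈ T.1) with hψ
  have hchi : ∀ x T, chi (ψ x) T = ind T x := by
    intro x T
    simp [chi, ind, hψ]
  have hmem : ∀ x, ψ x ∈ cls w Finset.univ (∑ T ∈ ψ x₀, w T) := by
    intro x
    rw [mem_cls]
    refine ⟨Finset.subset_univ _, ?_⟩
    have h3 : ∑ T, w T * (chi (ψ x) T - chi (ψ x₀) T) = 0 := by
      refine (hw (fun T => chi (ψ x) T - chi (ψ x₀) T) (fun T => ?_)).2
        ⟨x, x₀, funext fun T => by rw [hchi, hchi]⟩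
      have h2 := chi_cases (ψ x) T
      have h3 := chi_cases (ψ x₀) T
      rw [abs_le]
      omega
    simp only [mul_sub] at h3
    rw [Finset.sum_sub_distrib, sum_chi, sum_chi] at h3
    linarith
  have hinj : Function.Injective ψ := by
    intro x y hxy
    apply ind_inj hl hm
    intro T
    rw [← hchi, ← hchi, hxy]
  refine ⟨∑ T ∈ ψ x₀, w T, ?_⟩
  have hge : m ≤ (cls w Finset.univ (∑ T ∈ ψ x₀, w T)).card := by
    have h1 : (Finset.univ.image ψ).card = m := by
      rw [Finset.card_image_of_injective _ hinj, Finset.card_univ, Fintype.card_fin]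
    have h2 : (Finset.univ.image ψ).card ≤ (cls w Finset.univ (∑ T ∈ ψ x₀, w T)).card := by
      apply Finset.card_le_card
      intro J hJ
      obtain ⟨x, -, rfl⟩ := Finset.mem_image.1 hJ
      exact hmem x
    omega
  rcases count_class hl hm hm2 hw Finset.univ (∑ T ∈ ψ x₀, w T) with h | h
  · omega
  · exact h

end star

theorem reps_map {τ : Type} [DecidableEq τ] (emb : τ ↪ ℕ) (I : Finset τ) (b : ℕ → ℤ) (s : ℤ) :
    reps (I.map emb) b s = (I.powerset.filter (fun J => ∑ T ∈ J, b (emb T) = s)).card := by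
  classical
  unfold reps
  symm
  apply Finset.card_bij (fun J _ => J.map emb)
  · intro J hJ
    rw [Finset.mem_filter, Finset.mem_powerset] at hJ ⊢
    refine ⟨Finset.map_subset_map.2 hJ.1, ?_⟩
    rw [Finset.sum_map]
    exact hJ.2
  · intro J _ J' _ h
    exact Finset.map_injective emb h
  · intro J hJ
    rw [Finset.mem_filter, Finset.mem_powerset] at hJ
    obtain ⟨J', hJ', rfl⟩ := Finset.subset_map_iff.1 hJ.1
    refine ⟨J', ?_, rfl⟩
    rw [Finset.mem_filter, Finset.mem_powerset]
    refine ⟨hJ', ?_⟩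
    rw [← hJ.2, Finset.sum_map]

/-- The list of the row. -/
theorem exists_list {m l : ℕ} (hl : 2 ≤ l) (hm : l + 1 ≤ m) (hm2 : m ≤ 2 * l - 1) :
    ∃ a : List ℤ, (∀ I ⊆ Finset.range a.length, ∀ t, reps I (cf a) t ≤ l ∨ reps I (cf a) t = m) ∧
      ∃ I ⊆ Finset.range a.length, ∃ t, reps I (cf a) t = m := by
  classical
  obtain ⟨w, hw⟩ := exists_row (m := m) (l := l) hl hm
  set e := Fintype.equivFin (Pl m l) with he
  set a : List ℤ := List.ofFn (fun i => w (e.symm i)) with ha
  have hlen : a.length = Fintype.card (Pl m l) := by rw [ha, List.length_ofFn]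
  set emb : Pl m l ↪ ℕ := ⟨fun T => (e T : ℕ), fun T T' h => by
    have : e T = e T' := Fin.ext h
    exact e.injective this⟩ with hemb
  have hcf : ∀ T, cf a (emb T) = w T := by
    intro T
    unfold cf
    rw [ha, List.getD_eq_getElem?_getD, List.getElem?_ofFn]
    have h1 : emb T < Fintype.card (Pl m l) := (e T).2
    rw [dif_pos h1]
    simp only [Option.getD_some]
    congr 1
    rw [Equiv.symm_apply_eq]
    rfl
  have hreps : ∀ (I : Finset (Pl m l)) (t : ℤ), reps (I.map emb) (cf a) t = (cls w I t).card := by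
    intro I t
    rw [reps_map emb I (cf a) t]
    unfold cls
    simp only [hcf]
  have hI : ∀ I ⊆ Finset.range a.length, ∃ I' : Finset (Pl m l), I = I'.map emb := by
    intro I hI
    refine ⟨Finset.univ.filter (fun T => emb T ∈ I), ?_⟩
    ext n
    rw [Finset.mem_map]
    constructor
    · intro hn
      have h1 := Finset.mem_range.1 (hI hn)
      rw [hlen] at h1
      have h2 : emb (e.symm ⟨n, h1⟩) = n := by simp [hemb]
      refine ⟨e.symm ⟨n, h1⟩, ?_, h2⟩
      rw [Finset.mem_filter]
      exact ⟨Finset.mem_univ _, by rw [h2]; exact hn⟩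
    · rintro ⟨T, hT, rfl⟩
      exact (Finset.mem_filter.1 hT).2
  refine ⟨a, fun I hI' t => ?_, ?_⟩
  · obtain ⟨I', rfl⟩ := hI I hI'
    rw [hreps]
    exact count_class hl hm hm2 hw I' t
  · obtain ⟨t, ht⟩ := exists_full hl hm hm2 hw
    refine ⟨Finset.univ.map emb, ?_, t, by rw [hreps, ht]⟩
    intro n hn
    obtain ⟨T, -, rfl⟩ := Finset.mem_map.1 hn
    rw [Finset.mem_range, hlen]
    exact (e T).2

/-- a list with two equal terms -/
theorem reps_two (I : Finset ℕ) (hI : I ⊆ Finset.range 2) (t : ℤ) : reps I (cf [1, 1]) t ≤ 2 := by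
  unfold reps
  have hsum : ∀ J ⊆ Finset.range 2, ∑ i ∈ J, cf [1, 1] i = J.card := by
    intro J hJ
    rw [Finset.sum_congr rfl (g := fun _ => (1 : ℤ))]
    · simp
    · intro i hi
      have := Finset.mem_range.1 (hJ hi)
      interval_cases i <;> rfl
  have hsub : I.powerset.filter (fun J => ∑ i ∈ J, cf [1, 1] i = t)
      ⊆ (Finset.range 2).powersetCard t.toNat := by
    intro J hJ
    rw [Finset.mem_filter, Finset.mem_powerset] at hJ
    rw [Finset.mem_powersetCard]
    refine ⟨hJ.1.trans hI, ?_⟩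
    have := hJ.2
    rw [hsum J (hJ.1.trans hI)] at this
    omega
  refine (Finset.card_le_card hsub).trans ?_
  rw [Finset.card_powersetCard, Finset.card_range]
  generalize t.toNat = n
  rcases n with _ | _ | _ | n
  · simp
  · simp
  · simp
  · rw [Nat.choose_eq_zero_of_lt (by omega)]; omega

theorem reps_two_eq : reps (Finset.range 2) (cf [1, 1]) 1 = 2 := by
  decide

end Pool.Agent.Lib.RNG
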