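import Pool.Agent.Lib.RNG.Master

/-! Unions of numbers of representations: all values are finite. -/

open Cardinal Set Filter Topology

namespace Pool.Agent.Lib.RNG

open Pool.Agent.Lib.P92898d

/-- index of the free relations -/
abbrev Rh : Type := List ℤ × ℕ

/-- coefficients of a list -/
def cf (a : List ℤ) (i : ℕ) : ℤ := a.getD i 0

/-- the functional `2 ∑ a i e_{(a,i)}` -/
noncomputable def Lf (a : List ℤ) : Rh →₀ ℤ :=
  ∑ i ∈ Finset.range a.length, Finsupp.single (a, i) (2 * cf a i)

/-- the set of functionals -/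
def Cs (A : Set (List ℤ)) : Set (Rh →₀ ℤ) :=
  {f | (∃ a i, (a ∉ A ∨ a.length ≤ i) ∧ f = Finsupp.single (a, i) 2) ∨ (∃ a ∈ A, f = Lf a) ∨
    (∃ r r' : Rh, r.1 ≠ r'.1 ∧ (f = Finsupp.single r 1 + Finsupp.single r' 1 ∨
      f = Finsupp.single r 1 - Finsupp.single r' 1)) ∨ f = 0}

theorem countable_Cs (A : Set (List ℤ)) : (Cs A).Countable := Set.to_countable _

theorem dot_single {ρ : Type*} (r : ρ) (k : ℤ) (α : ρ → ℤ) : dot (Finsupp.single r k) α = k * α r := by
  rw [dot_eq_lc, Finsupp.linearCombination_single, smul_eq_mul]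

theorem dot_add {ρ : Type*} (f g : ρ →₀ ℤ) (α : ρ → ℤ) : dot (f + g) α = dot f α + dot g α := by
  simp only [dot_eq_lc, map_add]

theorem dot_subf {ρ : Type*} (f g : ρ →₀ ℤ) (α : ρ → ℤ) : dot (f - g) α = dot f α - dot g α := by
  simp only [dot_eq_lc, map_sub]

theorem dot_zero {ρ : Type*} (α : ρ → ℤ) : dot (0 : ρ →₀ ℤ) α = 0 := by
  simp only [dot_eq_lc, map_zero]

theorem dot_Lf (a : List ℤ) (α : Rh → ℤ) :
    dot (Lf a) α = 2 * ∑ i ∈ Finset.range a.length, cf a i * α (a, i) := by
  rw [dot_eq_lc, Lf, map_sum, Finset.mul_sum]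
  apply Finset.sum_congr rfl
  intro i _
  rw [Finsupp.linearCombination_single, smul_eq_mul]
  ring

/-- consequences of `|dot f α| ≤ 1` for the functionals -/
structure Good (A : Set (List ℤ)) (α : Rh → ℤ) : Prop where
  out : ∀ a i, (a ∉ A ∨ a.length ≤ i) → α (a, i) = 0
  lin : ∀ a ∈ A, ∑ i ∈ Finset.range a.length, cf a i * α (a, i) = 0
  one : ∀ r r' : Rh, r.1 ≠ r'.1 → α r = 0 ∨ α r' = 0

theorem good_of_le {A : Set (List ℤ)} {α : Rh → ℤ} (h : ∀ f ∈ Cs A, |dot f α| ≤ 1) : Good A α := by
  refine ⟨fun a i hi => ?_, fun a ha => ?_, fun r r' hr => ?_⟩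
  · have := h _ (Or.inl ⟨a, i, hi, rfl⟩)
    rw [dot_single, abs_le] at this
    omega
  · have := h _ (Or.inr (Or.inl ⟨a, ha, rfl⟩))
    rw [dot_Lf, abs_le] at this
    omega
  · have h1 := h _ (Or.inr (Or.inr (Or.inl ⟨r, r', hr, Or.inl rfl⟩)))
    have h2 := h _ (Or.inr (Or.inr (Or.inl ⟨r, r', hr, Or.inr rfl⟩)))
    rw [dot_add, dot_single, dot_single, abs_le] at h1
    rw [dot_subf, dot_single, dot_single, abs_le] at h2
    omega

theorem bit_sub {p q : ℤ} {b : Bool} (h : b2 b + p = 0 ∨ b2 b + p = 1)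
    (h' : b2 b + q = 0 ∨ b2 b + q = 1) : |p - q| ≤ 1 := by
  rw [abs_le]; omega

theorem bit_abs {p : ℤ} {b : Bool} (h : b2 b + p = 0 ∨ b2 b + p = 1) : |p| ≤ 1 := by
  rw [abs_le]
  rcases b2_cases b with h1 | h1 <;> omega

variable {A : Set (List ℤ)} {c : ℕ → Rh →₀ ℤ} {β : Rh → ℕ → Bool} {γ : ℕ → Bool}

theorem good_feas (hc : Cs A = Set.range c) {α : Rh → ℤ} (h : α ∈ Feas c β γ) : Good A α := by
  apply good_of_le
  intro f hf
  rw [hc] at hf
  obtain ⟨n, rfl⟩ := hf
  exact bit_abs (h.2 n)

theorem good_feas_sub (hc : Cs A = Set.range c) {α α' : Rh → ℤ} (h : α ∈ Feas c β γ)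
    (h' : α' ∈ Feas c β γ) : Good A (fun r => α r - α' r) := by
  apply good_of_le
  intro f hf
  rw [hc] at hf
  obtain ⟨n, rfl⟩ := hf
  rw [dot_sub]
  exact bit_sub (h.2 n) (h'.2 n)

theorem zero_feas : (fun _ => 0) ∈ Feas c β γ := by
  refine ⟨fun r j => ?_, fun n => ?_⟩
  · simpa using b2_cases _
  · have : dot (c n) (fun _ => 0) = 0 := by
      simp [dot, Finsupp.sum]
    rw [this, add_zero]
    exact b2_cases _

/-- the vector of the subset `J` -/
def vec (a : List ℤ) (I : Finset ℕ) (b : ℕ → ℤ) (J : Finset ℕ) (r : Rh) : ℤ :=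
  if r.1 = a ∧ r.2 ∈ I then (if r.2 ∈ J then 1 else 0) - b r.2 else 0

theorem vec_in {a : List ℤ} {I : Finset ℕ} {b : ℕ → ℤ} {J : Finset ℕ} {i : ℕ} (h : i ∈ I) :
    vec a I b J (a, i) = (if i ∈ J then 1 else 0) - b i := by
  simp [vec, h]

theorem vec_out {a : List ℤ} {I : Finset ℕ} {b : ℕ → ℤ} {J : Finset ℕ} {r : Rh}
    (h : ¬ (r.1 = a ∧ r.2 ∈ I)) : vec a I b J r = 0 := by
  simp only [vec, if_neg h]

theorem vec_inj {a : List ℤ} {I : Finset ℕ} {b : ℕ → ℤ} {J J' : Finset ℕ} (hJ : J ⊆ I) (hJ' : J' ⊆ I)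
    (h : vec a I b J = vec a I b J') : J = J' := by
  ext i
  by_cases hi : i ∈ I
  · have := congrFun h (a, i)
    rw [vec_in hi, vec_in hi] at this
    by_cases h1 : i ∈ J <;> by_cases h2 : i ∈ J'
    · exact ⟨fun _ => h2, fun _ => h1⟩
    · rw [if_pos h1, if_neg h2] at this; omega
    · rw [if_neg h1, if_pos h2] at this; omega
    · exact ⟨fun h => absurd h h1, fun h => absurd h h2⟩
  · exact ⟨fun h1 => absurd (hJ h1) hi, fun h1 => absurd (hJ' h1) hi⟩

/-- the subsets with the given sum -/
def Js (a : List ℤ) (I : Finset ℕ) (s : ℤ) : Finset (Finset ℕ) :=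
  I.powerset.filter (fun J => ∑ i ∈ J, cf a i = s)

theorem mem_Js {a : List ℤ} {I : Finset ℕ} {s : ℤ} {J : Finset ℕ} :
    J ∈ Js a I s ↔ J ⊆ I ∧ ∑ i ∈ J, cf a i = s := by
  simp [Js]

theorem card_of_eq {a : List ℤ} {I : Finset ℕ} {b : ℕ → ℤ} {s : ℤ}
    (h : Feas c β γ = vec a I b '' (Js a I s : Set (Finset ℕ))) :
    #(Feas c β γ) = (reps I (cf a) s : Cardinal.{0}) := by
  rw [h, Cardinal.mk_image_eq_of_injOn]
  · exact Cardinal.mk_coe_finset (s := Js a I s)
  · intro J hJ J' hJ' he
    exact vec_inj (mem_Js.1 hJ).1 (mem_Js.1 hJ').1 he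

theorem sum_vec {a : List ℤ} {I : Finset ℕ} (hI : I ⊆ Finset.range a.length) {b : ℕ → ℤ}
    {J : Finset ℕ} (hJ : J ⊆ I) :
    ∑ i ∈ Finset.range a.length, cf a i * vec a I b J (a, i)
      = ∑ i ∈ J, cf a i - ∑ i ∈ I, cf a i * b i := by
  rw [← Finset.sum_subset hI (fun i _ hi => by rw [vec_out (by simp [hi]), mul_zero])]
  have h1 : ∑ i ∈ I, cf a i * vec a I b J (a, i)
      = ∑ i ∈ I, ((if i ∈ J then cf a i else 0) - cf a i * b i) := by
    apply Finset.sum_congr rfl
    intro i hi
    rw [vec_in hi]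
    split_ifs <;> ring
  rw [h1, Finset.sum_sub_distrib, Finset.sum_ite_mem, Finset.inter_eq_right.2 hJ]

/-- Every class has a size of the required form. -/
theorem feas_card (hA : A.Nonempty) (hc : Cs A = Set.range c) (β : Rh → ℕ → Bool) (γ : ℕ → Bool) :
    ∃ a ∈ A, ∃ I ⊆ Finset.range a.length, ∃ s : ℤ,
      #(Feas c β γ) = (reps I (cf a) s : Cardinal.{0}) ∧ 0 < reps I (cf a) s := by
  classical
  by_cases hz : ∀ α ∈ Feas c β γ, ∀ r, α r = 0
  · obtain ⟨a, ha⟩ := hA
    refine ⟨a, ha, ∅, Finset.empty_subset _, 0, ?_, ?_⟩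
    · have : Feas c β γ = {fun _ => 0} := by
        ext α
        constructor
        · intro h
          exact funext (hz α h)
        · intro h
          rw [Set.mem_singleton_iff] at h
          rw [h]
          exact zero_feas
      have h1 := reps_zero (cf a) 0
      rw [Finset.range_zero, if_pos rfl] at h1
      rw [this, h1]
      simp
    · have h1 := reps_zero (cf a) 0
      rw [Finset.range_zero, if_pos rfl] at h1
      rw [h1]
      exact one_pos
  · push Not at hz
    obtain ⟨α₀, h₀, ⟨a, i₀⟩, hr₀⟩ := hz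
    have haA : a ∈ A := by
      by_contra hcon
      exact hr₀ ((good_feas hc h₀).out a i₀ (Or.inl hcon))
    have hblock : ∀ α ∈ Feas c β γ, ∀ r : Rh, r.1 ≠ a → α r = 0 := by
      intro α h r hr
      by_contra hne
      have h1 := ((good_feas hc h).one r (a, i₀) hr).resolve_left hne
      have h2 := ((good_feas hc h₀).one r (a, i₀) hr).resolve_right hr₀
      rcases (good_feas_sub hc h₀ h).one r (a, i₀) hr with h3 | h3
      · simp only [h2, zero_sub, neg_eq_zero] at h3
        exact hne h3
      · simp only [h1, sub_zero] at h3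
        exact hr₀ h3
    set I : Finset ℕ := (Finset.range a.length).filter (fun i => ∃ α ∈ Feas c β γ, α (a, i) ≠ 0) with hI
    have hIr : I ⊆ Finset.range a.length := Finset.filter_subset _ _
    have hmemI : ∀ α ∈ Feas c β γ, ∀ i, α (a, i) ≠ 0 → i ∈ I := by
      intro α h i hne
      rw [hI, Finset.mem_filter, Finset.mem_range]
      refine ⟨?_, α, h, hne⟩
      by_contra hcon
      push Not at hcon
      exact hne ((good_feas hc h).out a i (Or.inr hcon))
    set b : ℕ → ℤ := fun i => b2 (β (a, i) 0) with hb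
    have hbc : ∀ i ∈ I, ∀ j, b2 (β (a, i) j) = b i := by
      intro i hi j
      rw [hI, Finset.mem_filter] at hi
      obtain ⟨-, α, h, hne⟩ := hi
      have h1 := h.1 (a, i) j
      have h2 := h.1 (a, i) 0
      have h3 := b2_cases (β (a, i) j)
      have h4 := b2_cases (β (a, i) 0)
      show b2 (β (a, i) j) = b2 (β (a, i) 0)
      omega
    have hval : ∀ α ∈ Feas c β γ, ∀ i, α (a, i) ≠ 0 → α (a, i) = 1 - 2 * b i := by
      intro α h i hne
      have h2 := h.1 (a, i) 0
      have h4 := b2_cases (β (a, i) 0)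
      show α (a, i) = 1 - 2 * b2 (β (a, i) 0)
      omega
    set s : ℤ := ∑ i ∈ I, cf a i * b i with hs
    have hEq : Feas c β γ = vec a I b '' (Js a I s : Set (Finset ℕ)) := by
      ext α
      constructor
      · intro h
        refine ⟨I.filter (fun i => b i + α (a, i) = 1), ?_, ?_⟩
        · rw [Finset.mem_coe, mem_Js]
          refine ⟨Finset.filter_subset _ _, ?_⟩
          have h1 : ∑ i ∈ I, cf a i * α (a, i) = 0 := by
            rw [Finset.sum_subset hIr (fun i _ hi => ?_)]
            · exact (good_feas hc h).lin a haA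
            · by_contra hne
              exact hi (hmemI α h i (fun h0 => hne (by rw [h0, mul_zero])))
          rw [Finset.sum_filter]
          have h2 : ∑ i ∈ I, (if b i + α (a, i) = 1 then cf a i else 0)
              = ∑ i ∈ I, (cf a i * b i + cf a i * α (a, i)) := by
            apply Finset.sum_congr rfl
            intro i _
            have h3 := h.1 (a, i) 0
            change b i + α (a, i) = 0 ∨ b i + α (a, i) = 1 at h3
            rw [← mul_add]
            rcases h3 with h3 | h3 <;> rw [h3] <;> simp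
          rw [h2, Finset.sum_add_distrib, h1, add_zero]
        · funext r
          by_cases hr : r.1 = a ∧ r.2 ∈ I
          · obtain ⟨h1, h2⟩ := hr
            have hr' : r = (a, r.2) := by rw [← h1]
            rw [hr', vec_in h2]
            have h3 := h.1 (a, r.2) 0
            change b r.2 + α (a, r.2) = 0 ∨ b r.2 + α (a, r.2) = 1 at h3
            by_cases h4 : b r.2 + α (a, r.2) = 1
            · rw [if_pos (Finset.mem_filter.2 ⟨h2, h4⟩)]
              linarith
            · have h6 : r.2 ∉ I.filter (fun i => b i + α (a, i) = 1) :=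
                fun h5 => h4 (Finset.mem_filter.1 h5).2
              rw [if_neg h6]
              have := h3.resolve_right h4
              linarith
          · rw [vec_out hr]
            by_contra hne
            apply hr
            have h1 : r.1 = a := by
              by_contra h1
              exact hne (hblock α h r h1).symm
            refine ⟨h1, hmemI α h r.2 ?_⟩
            have hr' : r = (a, r.2) := by rw [← h1]
            rw [← hr']
            exact fun h0 => hne h0.symm
      · rintro ⟨J, hJ, rfl⟩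
        rw [Finset.mem_coe, mem_Js] at hJ
        obtain ⟨hJI, hJs⟩ := hJ
        -- a feasible vector with the same value
        have hwit : ∀ i ∈ I, vec a I b J (a, i) = 0 ∨ ∃ α ∈ Feas c β γ, α (a, i) = vec a I b J (a, i) := by
          intro i hi
          by_cases h0 : vec a I b J (a, i) = 0
          · left; exact h0
          · right
            have hi2 := hi
            rw [hI, Finset.mem_filter] at hi2
            obtain ⟨-, α, h, hne⟩ := hi2
            refine ⟨α, h, ?_⟩
            rw [hval α h i hne]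
            rw [vec_in hi] at h0 ⊢
            have h4 : b i = 0 ∨ b i = 1 := b2_cases (β (a, i) 0)
            split_ifs at h0 ⊢ <;> rcases h4 with h4 | h4 <;> rw [h4] at h0 ⊢ <;> simp_all
        have hwit2 : ∀ r : Rh, ∃ α ∈ Feas c β γ, α r = vec a I b J r ∧ ∀ r' : Rh, r'.1 ≠ a → α r' = 0 := by
          intro r
          by_cases hr : r.1 = a ∧ r.2 ∈ I
          · obtain ⟨h1, h2⟩ := hr
            have hr' : r = (a, r.2) := by rw [← h1]
            rcases hwit r.2 h2 with h3 | ⟨α, h, h3⟩
            · exact ⟨fun _ => 0, zero_feas, by rw [hr', h3], fun _ _ => rfl⟩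
            · exact ⟨α, h, by rw [hr', h3], hblock α h⟩
          · exact ⟨fun _ => 0, zero_feas, by rw [vec_out hr], fun _ _ => rfl⟩
        have hf : ∀ f ∈ Cs A, ∃ α ∈ Feas c β γ, dot f α = dot f (vec a I b J) := by
          rintro f (⟨a', i, h1, rfl⟩ | ⟨a', h1, rfl⟩ | ⟨r, r', hrr, hf⟩ | rfl)
          · refine ⟨fun _ => 0, zero_feas, ?_⟩
            rw [dot_single, dot_single, vec_out]
            rintro ⟨h2, h3⟩
            simp only at h2 h3
            subst h2
            rcases h1 with h1 | h1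
            · exact h1 haA
            · have := Finset.mem_range.1 (hIr h3)
              omega
          · refine ⟨fun _ => 0, zero_feas, ?_⟩
            rw [dot_Lf, dot_Lf]
            simp only [mul_zero, Finset.sum_const_zero]
            by_cases h2 : a' = a
            · subst h2
              rw [sum_vec hIr hJI, hJs, sub_self, mul_zero]
            · rw [Finset.sum_eq_zero (fun i _ => by
                rw [vec_out (fun h => h2 h.1), mul_zero]), mul_zero]
          · by_cases h1 : r.1 = a
            · have h2 : r'.1 ≠ a := fun h => hrr (h1.trans h.symm)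
              obtain ⟨α, h, h3, h4⟩ := hwit2 r
              refine ⟨α, h, ?_⟩
              have h5 : vec a I b J r' = 0 := vec_out (fun h => h2 h.1)
              rcases hf with rfl | rfl
              · simp only [dot_add, dot_single, h3, h4 r' h2, h5]
              · simp only [dot_subf, dot_single, h3, h4 r' h2, h5]
            · obtain ⟨α, h, h3, h4⟩ := hwit2 r'
              refine ⟨α, h, ?_⟩
              have h5 : vec a I b J r = 0 := vec_out (fun h => h1 h.1)
              rcases hf with rfl | rfl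
              · simp only [dot_add, dot_single, h3, h4 r h1, h5]
              · simp only [dot_subf, dot_single, h3, h4 r h1, h5]
          · exact ⟨fun _ => 0, zero_feas, by rw [dot_zero, dot_zero]⟩
        refine ⟨fun r j => ?_, fun n => ?_⟩
        · by_cases hr : r.1 = a ∧ r.2 ∈ I
          · obtain ⟨h1, h2⟩ := hr
            have hr' : r = (a, r.2) := by rw [← h1]
            rw [hr', hbc r.2 h2 j, vec_in h2]
            split_ifs <;> simp
          · rw [vec_out hr, add_zero]
            exact b2_cases _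
        · obtain ⟨α, h, h1⟩ := hf (c n) (by rw [hc]; exact ⟨n, rfl⟩)
          rw [← h1]
          exact h.2 n
    refine ⟨a, haA, I, hIr, s, card_of_eq hEq, ?_⟩
    unfold reps
    rw [Finset.card_pos]
    have h0 : (fun _ => 0) ∈ Feas c β γ := zero_feas
    rw [hEq] at h0
    obtain ⟨J, hJ, -⟩ := h0
    exact ⟨J, hJ⟩

/-- Every value is attained. -/
theorem feas_attained (hc : Cs A = Set.range c) {a : List ℤ} (ha : a ∈ A) {I : Finset ℕ}
    (hI : I ⊆ Finset.range a.length) (s : ℤ) (hpos : 0 < reps I (cf a) s) :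
    ∃ (β : Rh → ℕ → Bool) (γ : ℕ → Bool), #(Feas c β γ) = (reps I (cf a) s : Cardinal.{0}) := by
  classical
  obtain ⟨J₀, hJ₀⟩ := Finset.card_pos.1 hpos
  change J₀ ∈ Js a I s at hJ₀
  rw [mem_Js] at hJ₀
  obtain ⟨hJ₀I, hJ₀s⟩ := hJ₀
  set b : ℕ → ℤ := fun i => if i ∈ J₀ then 1 else 0 with hb
  have hbs : ∑ i ∈ I, cf a i * b i = s := by
    rw [← hJ₀s]
    simp only [hb, mul_ite, mul_one, mul_zero]
    rw [Finset.sum_ite_mem, Finset.inter_eq_right.2 hJ₀I]
  let β : Rh → ℕ → Bool := fun r j => if r.1 = a ∧ r.2 ∈ I then decide (r.2 ∈ J₀) else decide (j = 0)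
  let γ : ℕ → Bool := fun n => decide (∃ J ∈ Js a I s, dot (c n) (vec a I b J) = -1)
  refine ⟨β, γ, card_of_eq (b := b) ?_⟩
  have hsign : ∀ f ∈ Cs A, ∃ σ : ℤ, (σ = 1 ∨ σ = -1) ∧ ∀ J ∈ Js a I s,
      dot f (vec a I b J) = 0 ∨ dot f (vec a I b J) = σ := by
    have hv : ∀ r : Rh, ∃ σ : ℤ, (σ = 1 ∨ σ = -1) ∧ ∀ J, vec a I b J r = 0 ∨ vec a I b J r = σ := by
      intro r
      by_cases h : r.2 ∈ J₀
      · refine ⟨-1, Or.inr rfl, fun J => ?_⟩
        by_cases hr : r.1 = a ∧ r.2 ∈ I
        · obtain ⟨h1, h2⟩ := hr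
          have hr' : r = (a, r.2) := by rw [← h1]
          rw [hr', vec_in h2]
          simp only [hb, if_pos h]
          split_ifs <;> simp
        · left; exact vec_out hr
      · refine ⟨1, Or.inl rfl, fun J => ?_⟩
        by_cases hr : r.1 = a ∧ r.2 ∈ I
        · obtain ⟨h1, h2⟩ := hr
          have hr' : r = (a, r.2) := by rw [← h1]
          rw [hr', vec_in h2]
          simp only [hb, if_neg h]
          split_ifs <;> simp
        · left; exact vec_out hr
    rintro f (⟨a', i, h1, rfl⟩ | ⟨a', h1, rfl⟩ | ⟨r, r', hrr, hf⟩ | rfl)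
    · refine ⟨1, Or.inl rfl, fun J _ => Or.inl ?_⟩
      rw [dot_single, vec_out, mul_zero]
      rintro ⟨h2, h3⟩
      simp only at h2 h3
      subst h2
      rcases h1 with h1 | h1
      · exact h1 ha
      · have := Finset.mem_range.1 (hI h3)
        omega
    · refine ⟨1, Or.inl rfl, fun J hJ => Or.inl ?_⟩
      rw [mem_Js] at hJ
      rw [dot_Lf]
      by_cases h2 : a' = a
      · subst h2
        rw [sum_vec hI hJ.1, hJ.2, hbs, sub_self, mul_zero]
      · rw [Finset.sum_eq_zero (fun i _ => by
          rw [vec_out (fun h => h2 h.1), mul_zero]), mul_zero]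
    · by_cases h1 : r.1 = a
      · have h2 : r'.1 ≠ a := fun h => hrr (h1.trans h.symm)
        obtain ⟨σ, hσ, h3⟩ := hv r
        refine ⟨σ, hσ, fun J _ => ?_⟩
        have h5 : vec a I b J r' = 0 := vec_out (fun h => h2 h.1)
        rcases hf with rfl | rfl
        · simp only [dot_add, dot_single, h5, mul_zero, add_zero, one_mul]
          exact h3 J
        · simp only [dot_subf, dot_single, h5, mul_zero, sub_zero, one_mul]
          exact h3 J
      · obtain ⟨σ, hσ, h3⟩ := hv r'
        rcases hf with rfl | rfl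
        · refine ⟨σ, hσ, fun J _ => ?_⟩
          have h5 : vec a I b J r = 0 := vec_out (fun h => h1 h.1)
          simp only [dot_add, dot_single, h5, mul_zero, zero_add, one_mul]
          exact h3 J
        · refine ⟨-σ, by omega, fun J _ => ?_⟩
          have h5 : vec a I b J r = 0 := vec_out (fun h => h1 h.1)
          simp only [dot_subf, dot_single, h5, mul_zero, zero_sub, one_mul]
          have := h3 J
          omega
    · exact ⟨1, Or.inl rfl, fun J _ => Or.inl (dot_zero _)⟩
  ext α
  constructor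
  · intro h
    have hg := good_feas hc h
    have hout : ∀ r : Rh, ¬ (r.1 = a ∧ r.2 ∈ I) → α r = 0 := by
      intro r hr
      have h0 := h.1 r 0
      have h1 := h.1 r 1
      simp only [β, if_neg hr] at h0 h1
      simp [b2] at h0 h1
      omega
    have hin : ∀ i ∈ I, b i + α (a, i) = 0 ∨ b i + α (a, i) = 1 := by
      intro i hi
      have h0 := h.1 (a, i) 0
      have e : b2 (β (a, i) 0) = b i := by
        simp only [β, hb, hi, and_self, if_true]
        by_cases h1 : i ∈ J₀ <;> simp [b2, h1]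
      rw [e] at h0
      exact h0
    refine ⟨I.filter (fun i => b i + α (a, i) = 1), ?_, ?_⟩
    · rw [Finset.mem_coe, mem_Js]
      refine ⟨Finset.filter_subset _ _, ?_⟩
      have h1 : ∑ i ∈ I, cf a i * α (a, i) = 0 := by
        rw [Finset.sum_subset hI (fun i _ hi => by rw [hout (a, i) (fun h => hi h.2), mul_zero])]
        exact hg.lin a ha
      rw [Finset.sum_filter]
      have h2 : ∑ i ∈ I, (if b i + α (a, i) = 1 then cf a i else 0)
          = ∑ i ∈ I, (cf a i * b i + cf a i * α (a, i)) := by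
        apply Finset.sum_congr rfl
        intro i hi
        rw [← mul_add]
        rcases hin i hi with h3 | h3 <;> rw [h3] <;> simp
      rw [h2, Finset.sum_add_distrib, h1, add_zero, hbs]
    · funext r
      by_cases hr : r.1 = a ∧ r.2 ∈ I
      · obtain ⟨h1, h2⟩ := hr
        have hr' : r = (a, r.2) := by rw [← h1]
        rw [hr', vec_in h2]
        by_cases h4 : b r.2 + α (a, r.2) = 1
        · rw [if_pos (Finset.mem_filter.2 ⟨h2, h4⟩)]
          linarith
        · have h6 : r.2 ∉ I.filter (fun i => b i + α (a, i) = 1) :=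
            fun h5 => h4 (Finset.mem_filter.1 h5).2
          rw [if_neg h6]
          have := (hin r.2 h2).resolve_right h4
          linarith
      · rw [vec_out hr, hout r hr]
  · rintro ⟨J, hJ, rfl⟩
    rw [Finset.mem_coe] at hJ
    refine ⟨fun r j => ?_, fun n => ?_⟩
    · by_cases hr : r.1 = a ∧ r.2 ∈ I
      · have hr2 := hr
        obtain ⟨h1, h2⟩ := hr
        have e : b2 (β r j) = b r.2 := by
          simp only [β, if_pos hr2, hb]
          by_cases h1 : r.2 ∈ J₀ <;> simp [b2, h1]
        have hr' : r = (a, r.2) := by rw [← h1]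
        rw [e]
        rw [hr', vec_in h2]
        simp only
        split_ifs <;> simp
      · rw [vec_out hr, add_zero]
        exact b2_cases _
    · obtain ⟨σ, hσ, hall⟩ := hsign (c n) (by rw [hc]; exact ⟨n, rfl⟩)
      by_cases hex : ∃ J ∈ Js a I s, dot (c n) (vec a I b J) = -1
      · have e : b2 (γ n) = 1 := by simp only [γ, b2, decide_eq_true hex, if_true]
        rw [e]
        obtain ⟨J', hJ', h'⟩ := hex
        have h1 := hall J' hJ'
        have h2 := hall J hJ
        omega
      · have e : b2 (γ n) = 0 := by simp only [γ, b2, decide_eq_false hex]; simp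
        rw [e]
        have h1 : dot (c n) (vec a I b J) ≠ -1 := fun h => hex ⟨J, hJ, h⟩
        have h2 := hall J hJ
        omega

/-- **Union theorem.** -/
theorem isRange_union (b : ℕ → ℤ) (n : ℕ) {A : Set (List ℤ)} (hA : A.Nonempty) :
    IsRange (insert 0 {κ | ∃ s t : ℤ, ∃ a ∈ A, ∃ I ⊆ Finset.range a.length,
      κ = ((reps (Finset.range n) b s * reps I (cf a) t : ℕ) : Cardinal.{0})}) := by
  obtain ⟨c, hc⟩ := (countable_Cs A).exists_eq_range ⟨0, Or.inr (Or.inr (Or.inr rfl))⟩
  have h := master c b n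
  have e : (insert 0 {κ : Cardinal.{0} | ∃ s : ℤ, ∃ (β : Rh → ℕ → Bool) (γ : ℕ → Bool),
      κ = (reps (Finset.range n) b s : Cardinal.{0}) * #(Feas c β γ)})
      = insert 0 {κ | ∃ s t : ℤ, ∃ a ∈ A, ∃ I ⊆ Finset.range a.length,
      κ = ((reps (Finset.range n) b s * reps I (cf a) t : ℕ) : Cardinal.{0})} := by
    ext κ
    rw [Set.mem_insert_iff, Set.mem_insert_iff, Set.mem_ofPred_eq, Set.mem_ofPred_eq]
    constructor
    · rintro (rfl | ⟨s, β, γ, rfl⟩)
      · left; rfl
      · right
        obtain ⟨a, ha, I, hI, t, h1, -⟩ := feas_card hA hc β γ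
        exact ⟨s, t, a, ha, I, hI, by rw [h1]; push_cast; rfl⟩
    · rintro (rfl | ⟨s, t, a, ha, I, hI, rfl⟩)
      · left; rfl
      · rcases Nat.eq_zero_or_pos (reps I (cf a) t) with h0 | h0
        · left; rw [h0]; simp
        · right
          obtain ⟨β, γ, h1⟩ := feas_attained hc ha hI t h0
          exact ⟨s, β, γ, by rw [h1]; push_cast; rfl⟩
  rwa [e] at h

end Pool.Agent.Lib.RNG
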